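import Pool.Agent.Lib_helper58.EvenHomeo.Slow

/-!
# FROZEN, part 2: the slowed map on `M` and its continuity
-/

open Set Metric Topology Filter

namespace Pool.Agent.EvenHomeo

/-- The elapsed time of the slowed map, in the coordinates of the cut open space. -/
noncomputable def frozenT (lam α δ r s θ : ℝ) (υ : T) : ℝ :=
  1 - (frozenX δ r (θ + α * (0 - s)) υ * frozenA δ s
    + frozenX δ r (θ + α * (1 - s)) (υ + D lam r (θ + α * (1 - s))) * frozenA δ (s - 1)
    + frozenX δ r (θ + α * (2 - s)) (υ + D lam r (θ + α * (2 - s))) * frozenA δ (s - 2))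

/-- Two different crossings are not both near an integer. -/
theorem frozen_sep {α θ c c' : ℝ} (h1 : 1 / 5 < α) (h2 : α < 1 / 3) {k : ℤ} (hk : k ≠ 0)
    (hk2 : -2 ≤ k) (hk3 : k ≤ 2) (hc : c' = c + k) (h : |cr (θ + α * c)| ≤ 1 / 20) :
    1 / 20 < |cr (θ + α * c')| := by
  have h3 := Base.cr_slope h1 h2 hk hk2 hk3
  have h4 := abs_cr_sub (θ + α * c') (θ + α * c)
  have h5 : θ + α * c' - (θ + α * c) = α * k := by rw [hc]; ring
  rw [h5] at h4
  linarith

section

variable {X : Type} [NormedAddCommGroup X] [NormedSpace ℝ X] {Y B : Type} [MetricSpace Y]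
  [MetricSpace B]

namespace Base

variable (b : Base X Y B) {lam α δ : ℝ}

/-- representation by the second next crossing -/
theorem rep_next2 (lam α : ℝ) (y : Y) {s : ℝ} (hs : s < 1) (θ : ℝ) (υ : T) :
    (b.β (y, s, θ), υ) =
      b.ta lam α y (θ + α * (2 - s)) (s - 2) (υ + D lam (b.ρ y) (θ + α * (2 - s))) := by
  rw [b.ta_of_neg lam α y _ (by linarith), add_sub_cancel_right]
  have h1 : θ + α * (2 - s) + α * (s - 2) = θ := by ring
  have h2 := b.β_add_s y s θ (-2)
  push_cast at h2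
  rw [h1, sub_eq_add_neg, h2]

/-- The slowed map in the coordinates of the cut open space. -/
theorem frz_β (hlam : 0 < lam) (hlam' : lam ≤ 1 / 20) (h1 : 1 / 5 < α) (h2 : α < 1 / 3)
    (hδ : 0 < δ) (hδ' : δ ≤ 1 / 20) (y : Y) {s : ℝ} (hs : 0 ≤ s) (hs' : s < 1) (θ : ℝ) (υ : T) :
    b.frz lam α δ (b.β (y, s, θ), υ)
      = (b.β (y, s + frozenT lam α δ (b.ρ y) s θ υ, θ + α * frozenT lam α δ (b.ρ y) s θ υ),
        υ + if s + frozenT lam α δ (b.ρ y) s θ υ < 1 then 0
          else D lam (b.ρ y) (θ + α * (1 - s))) := by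
  set r := b.ρ y with hr
  have hX0 : δ ≤ |cr (θ + α * (0 - s))| → frozenX δ r (θ + α * (0 - s)) υ = 0 := fun h =>
    frozenX_eq_zero hδ (h.trans (abs_cr_le_ee _ _ _))
  have hX1 : δ ≤ |cr (θ + α * (1 - s))| →
      frozenX δ r (θ + α * (1 - s)) (υ + D lam r (θ + α * (1 - s))) = 0 := fun h =>
    frozenX_eq_zero hδ (h.trans (abs_cr_le_ee _ _ _))
  have hX2 : δ ≤ |cr (θ + α * (2 - s))| →
      frozenX δ r (θ + α * (2 - s)) (υ + D lam r (θ + α * (2 - s))) = 0 := fun h =>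
    frozenX_eq_zero hδ (h.trans (abs_cr_le_ee _ _ _))
  have hneg : b.β (y, s - 1, θ) = b.β (y, s, θ) := by
    have := b.β_add_s y s θ (-1)
    push_cast at this
    rw [← this, sub_eq_add_neg]
  by_cases hp : (b.β (y, s, θ), υ) ∈ b.Wm lam α δ
  · obtain ⟨y', θ', σ, υ', he, h3, h4, h5⟩ := hp
    have h6 : b.β (y, s, θ) = b.β (y', σ, θ' + α * σ) := congrArg Prod.fst h5
    have h7 := congrArg Prod.snd h5
    obtain ⟨rfl, ⟨j, hj⟩, ⟨k, hk⟩⟩ := (b.β_eq _ _ _ _ _ _).1 h6
    simp only [ta] at h7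
    have hθ' : θ' = θ + α * (-(j : ℝ) - s) + k := by
      rw [hj] at hk; linear_combination hk
    have hj1 : -3 < j := by
      have : (-3 : ℝ) < j := by linarith
      exact_mod_cast this
    have hj2 : j < 1 := by
      have : (j : ℝ) < 1 := by linarith
      exact_mod_cast this
    have hc : |cr (θ + α * (-(j : ℝ) - s))| ≤ 1 / 20 := by
      have := ((abs_cr_le_ee _ _ _).trans he).trans hδ'
      rwa [hθ', cr_add_int] at this
    rw [h5, frz, b.slow_ta h1 h2 hδ hδ' he h3 h4]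
    obtain ⟨g1, g2⟩ := frozenP_mem hδ (frozenX_nonneg δ (b.ρ y) θ' υ')
      (frozenX_le_one hδ (b.ρ y) θ' υ') h3 h4
    have c1 : |cr θ'| ≤ 1 / 20 := ((abs_cr_le_ee _ _ _).trans he).trans hδ'
    rw [b.L_ta_short hlam hlam' h1 h2 c1 y (by linarith) (by linarith)]
    have hj3 : j = 0 ∨ j = -1 ∨ j = -2 := by omega
    rcases hj3 with rfl | rfl | rfl
    · -- crossing in the past
      simp only [Int.cast_zero, add_zero, neg_zero] at hj hθ' hc
      have hj' : s = σ := hj.symm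
      subst hj'
      rw [if_neg (not_lt.2 hs), sub_zero] at h7
      subst h7
      have e1 := frozen_sep (c' := 1 - s) h1 h2 (k := 1) (by norm_num) (by norm_num)
        (by norm_num) (by push_cast; ring) hc
      have e2 := frozen_sep (c' := 2 - s) h1 h2 (k := 2) (by norm_num) (by norm_num)
        (by norm_num) (by push_cast; ring) hc
      have hT : frozenT lam α δ r s θ υ = 1 - frozenX δ r θ' υ * frozenA δ s := by
        unfold frozenT
        rw [hX1 (by linarith), hX2 (by linarith), hθ', frozenX_add_int]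
        ring
      have hφ : frozenP δ s (frozenX δ r θ' υ) + 1 = s + frozenT lam α δ r s θ υ := by
        rw [hT, frozenP]; ring
      rw [hφ]
      have ht0 : 0 ≤ frozenT lam α δ r s θ υ := by
        rw [hT]
        have a1 := frozenX_le_one hδ r θ' υ
        have a2 := frozenX_nonneg δ r θ' υ
        have a3 := frozenA_le_one hδ s
        have a4 := frozenA_nonneg δ s
        nlinarith
      rw [b.ta_of_nonneg lam α y _ (by linarith), D_zero_of_le hlam (hlam'.trans e1.le), ite_self,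
        add_zero, hθ']
      congr 1
      have : θ + α * (0 - s) + (k : ℝ) + α * (s + frozenT lam α δ r s θ υ)
          = θ + α * frozenT lam α δ r s θ υ + k := by ring
      rw [this, b.β_add_θ]
    · -- next crossing
      simp only [Int.cast_neg, Int.cast_one, neg_neg] at hj hθ' hc
      subst hj
      rw [if_pos (by linarith)] at h7
      have hυ' : υ' = υ + D lam r (θ + α * (1 - s)) := by
        rw [h7, hθ', D_add_int, ← hr, sub_add_cancel]
      have e0 := frozen_sep (c' := 0 - s) h1 h2 (k := -1) (by norm_num) (by norm_num)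
        (by norm_num) (by push_cast; ring) hc
      have e2 := frozen_sep (c' := 2 - s) h1 h2 (k := 1) (by norm_num) (by norm_num)
        (by norm_num) (by push_cast; ring) hc
      have hT : frozenT lam α δ r s θ υ = 1 - frozenX δ r θ' υ' * frozenA δ (s - 1) := by
        unfold frozenT
        rw [hX0 (by linarith), hX2 (by linarith), hθ', frozenX_add_int, hυ']
        ring
      have hφ : frozenP δ (s + -1) (frozenX δ r θ' υ') + 1
          = s + frozenT lam α δ r s θ υ - 1 := by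
        rw [hT, frozenP]; ring_nf
      rw [hφ]
      unfold ta
      have hb : θ' + α * (s + frozenT lam α δ r s θ υ - 1)
          = θ + α * frozenT lam α δ r s θ υ + k := by rw [hθ']; ring
      rw [hb, b.β_add_θ]
      have hβ := b.β_add_s y (s + frozenT lam α δ r s θ υ) (θ + α * frozenT lam α δ r s θ υ) (-1)
      push_cast at hβ
      rw [← sub_eq_add_neg] at hβ
      rw [hβ, hυ', hθ', D_add_int, ← hr]
      congr 1
      by_cases hlt : s + frozenT lam α δ r s θ υ < 1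
      · rw [if_pos hlt, if_pos (by linarith), add_zero, add_sub_cancel_right]
      · rw [if_neg hlt, if_neg (by linarith), sub_zero]
    · -- second next crossing
      simp only [Int.cast_neg, Int.cast_ofNat, neg_neg] at hj hθ' hc
      subst hj
      rw [if_pos (by linarith)] at h7
      have hυ' : υ' = υ + D lam r (θ + α * (2 - s)) := by
        rw [h7, hθ', D_add_int, ← hr, sub_add_cancel]
      have e0 := frozen_sep (c' := 0 - s) h1 h2 (k := -2) (by norm_num) (by norm_num)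
        (by norm_num) (by push_cast; ring) hc
      have e1 := frozen_sep (c' := 1 - s) h1 h2 (k := -1) (by norm_num) (by norm_num)
        (by norm_num) (by push_cast; ring) hc
      have hT : frozenT lam α δ r s θ υ = 1 - frozenX δ r θ' υ' * frozenA δ (s - 2) := by
        unfold frozenT
        rw [hX0 (by linarith), hX1 (by linarith), hθ', frozenX_add_int, hυ']
        ring
      have hT1 : frozenT lam α δ r s θ υ ≤ 1 := by
        rw [hT]
        have a2 := frozenX_nonneg δ r θ' υ'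
        have a4 := frozenA_nonneg δ (s - 2)
        nlinarith
      have hφ : frozenP δ (s + -2) (frozenX δ r θ' υ') + 1
          = s + frozenT lam α δ r s θ υ - 2 := by
        rw [hT, frozenP]; ring_nf
      rw [hφ]
      unfold ta
      have hb : θ' + α * (s + frozenT lam α δ r s θ υ - 2)
          = θ + α * frozenT lam α δ r s θ υ + k := by rw [hθ']; ring
      rw [hb, b.β_add_θ]
      have hβ := b.β_add_s y (s + frozenT lam α δ r s θ υ) (θ + α * frozenT lam α δ r s θ υ) (-2)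
      push_cast at hβ
      rw [← sub_eq_add_neg] at hβ
      rw [hβ, hυ', hθ', D_add_int, ← hr]
      congr 1
      rw [if_pos (by linarith), add_sub_cancel_right, D_zero_of_le hlam (hlam'.trans e1.le),
        ite_self, add_zero]
  · -- off the tube
    have key : ∀ σ ξ : ℝ, (¬ (ξ ≠ 0 ∧ -1 - δ ≤ σ ∧ σ ≤ δ)) → ξ * frozenA δ σ = 0 := by
      intro σ ξ h
      by_cases hξ : ξ = 0
      · rw [hξ, zero_mul]
      · rcases lt_or_ge σ (-1 - δ) with h3 | h3
        · rw [frozenA_of_le hδ h3.le, mul_zero]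
        · rcases lt_or_ge δ σ with h4 | h4
          · rw [frozenA_of_ge hδ h4.le, mul_zero]
          · exact absurd ⟨hξ, h3, h4⟩ h
    have hT : frozenT lam α δ r s θ υ = 1 := by
      unfold frozenT
      rw [key s _ ?_, key (s - 1) _ ?_, key (s - 2) _ ?_]
      · ring
      · rintro ⟨g1, g2, g3⟩
        exact hp ⟨y, _, s - 2, _, (frozenX_pos_imp hδ g1).le, g2, g3, b.rep_next2 lam α y hs' θ υ⟩
      · rintro ⟨g1, g2, g3⟩
        exact hp ⟨y, _, s - 1, _, (frozenX_pos_imp hδ g1).le, g2, g3, b.rep_next lam α y hs' θ υ⟩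
      · rintro ⟨g1, g2, g3⟩
        refine hp ⟨y, _, s, _, (frozenX_pos_imp hδ g1).le, g2, g3, ?_⟩
        have h5 := b.rep_prev lam α y hs θ υ
        have h6 : θ + α * (0 - s) = θ - α * s := by ring
        rw [h6]
        exact h5
    rw [frz, b.slow_off hp, b.L_β lam α hs hs', hT, mul_one, if_neg (by linarith)]
    have hβ := b.β_add_s y s (θ + α) 1
    push_cast at hβ
    rw [hβ]

end Base

variable {M : Type} [MetricSpace M] {e : M} {b : Base X Y B} {lam α δ : ℝ}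

/-- The elapsed time is continuous. -/
theorem frozenT_continuous (b : Base X Y B) (hlam : 0 < lam) (hlam' : lam ≤ 1 / 20) :
    Continuous fun q : Y × ℝ × ℝ × T => frozenT lam α δ (b.ρ q.1) q.2.1 q.2.2.1 q.2.2.2 := by
  have hρ := b.ρ_cont
  have hE := ee_continuous
  have hL := eeL_continuous hlam hlam'
  have hA := frozenA_continuous δ
  have c0 : Continuous fun q : Y × ℝ × ℝ × T =>
      ee (b.ρ q.1) (q.2.2.1 + α * (0 - q.2.1)) q.2.2.2 :=
    hE.comp (f := fun q : Y × ℝ × ℝ × T => (b.ρ q.1, q.2.2.1 + α * (0 - q.2.1), q.2.2.2))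
      (by fun_prop)
  have c1 : ∀ i : ℝ, Continuous fun q : Y × ℝ × ℝ × T =>
      ee (b.ρ q.1) (q.2.2.1 + α * (i - q.2.1))
        (q.2.2.2 + D lam (b.ρ q.1) (q.2.2.1 + α * (i - q.2.1))) := fun i =>
    hL.comp (f := fun q : Y × ℝ × ℝ × T => (b.ρ q.1, q.2.2.1 + α * (i - q.2.1), q.2.2.2))
      (by fun_prop)
  unfold frozenT frozenX
  refine continuous_const.sub (((Continuous.mul ?_ ?_).add (Continuous.mul ?_ ?_)).add
    (Continuous.mul ?_ ?_))
  · exact continuous_const.max (continuous_const.sub (c0.div_const _))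
  · exact hA.comp (by fun_prop)
  · exact continuous_const.max (continuous_const.sub ((c1 1).div_const _))
  · exact hA.comp (by fun_prop)
  · exact continuous_const.max (continuous_const.sub ((c1 2).div_const _))
  · exact hA.comp (by fun_prop)

theorem frozenT_le_one (r s θ : ℝ) (υ : T) : frozenT lam α δ r s θ υ ≤ 1 := by
  unfold frozenT
  have h : ∀ a b c d : ℝ, 0 ≤ frozenX δ a b υ ∧ 0 ≤ frozenA δ c := fun a b c d =>
    ⟨frozenX_nonneg _ _ _ _, frozenA_nonneg _ _⟩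
  have h0 := mul_nonneg (frozenX_nonneg δ r (θ + α * (0 - s)) υ) (frozenA_nonneg δ s)
  have h1 := mul_nonneg (frozenX_nonneg δ r (θ + α * (1 - s)) (υ + D lam r (θ + α * (1 - s))))
    (frozenA_nonneg δ (s - 1))
  have h2 := mul_nonneg (frozenX_nonneg δ r (θ + α * (2 - s)) (υ + D lam r (θ + α * (2 - s))))
    (frozenA_nonneg δ (s - 2))
  linarith

/-- At most one crossing is active. -/
theorem frozenT_cases (h1 : 1 / 5 < α) (h2 : α < 1 / 3) (hδ : 0 < δ) (hδ' : δ ≤ 1 / 20)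
    (r s θ : ℝ) (υ : T) :
    ∃ ξ σ : ℝ, 0 ≤ ξ ∧ ξ ≤ 1 ∧ (frozenT lam α δ r s θ υ = 1 - ξ * frozenA δ σ) := by
  set X0 := frozenX δ r (θ + α * (0 - s)) υ with hX0d
  set X1 := frozenX δ r (θ + α * (1 - s)) (υ + D lam r (θ + α * (1 - s))) with hX1d
  set X2 := frozenX δ r (θ + α * (2 - s)) (υ + D lam r (θ + α * (2 - s))) with hX2d
  have hX0 : 1 / 20 < |cr (θ + α * (0 - s))| → X0 = 0 := fun h =>
    frozenX_eq_zero hδ ((hδ'.trans h.le).trans (abs_cr_le_ee _ _ _))
  have hX1 : 1 / 20 < |cr (θ + α * (1 - s))| → X1 = 0 := fun h =>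
    frozenX_eq_zero hδ ((hδ'.trans h.le).trans (abs_cr_le_ee _ _ _))
  have hX2 : 1 / 20 < |cr (θ + α * (2 - s))| → X2 = 0 := fun h =>
    frozenX_eq_zero hδ ((hδ'.trans h.le).trans (abs_cr_le_ee _ _ _))
  by_cases g0 : |cr (θ + α * (0 - s))| ≤ 1 / 20
  · have e1 := frozen_sep (c' := 1 - s) h1 h2 (k := 1) (by norm_num) (by norm_num)
      (by norm_num) (by push_cast; ring) g0
    have e2 := frozen_sep (c' := 2 - s) h1 h2 (k := 2) (by norm_num) (by norm_num)
      (by norm_num) (by push_cast; ring) g0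
    refine ⟨X0, s, frozenX_nonneg _ _ _ _, frozenX_le_one hδ _ _ _, ?_⟩
    unfold frozenT
    rw [← hX0d, ← hX1d, ← hX2d, hX1 e1, hX2 e2]
    ring
  · rw [not_le] at g0
    by_cases g1 : |cr (θ + α * (1 - s))| ≤ 1 / 20
    · have e2 := frozen_sep (c' := 2 - s) h1 h2 (k := 1) (by norm_num) (by norm_num)
        (by norm_num) (by push_cast; ring) g1
      refine ⟨X1, s - 1, frozenX_nonneg _ _ _ _, frozenX_le_one hδ _ _ _, ?_⟩
      unfold frozenT
      rw [← hX0d, ← hX1d, ← hX2d, hX0 g0, hX2 e2]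
      ring
    · rw [not_le] at g1
      refine ⟨X2, s - 2, frozenX_nonneg _ _ _ _, frozenX_le_one hδ _ _ _, ?_⟩
      unfold frozenT
      rw [← hX0d, ← hX1d, ← hX2d, hX0 g0, hX1 g1]
      ring

theorem frozenT_nonneg (h1 : 1 / 5 < α) (h2 : α < 1 / 3) (hδ : 0 < δ) (hδ' : δ ≤ 1 / 20)
    (r s θ : ℝ) (υ : T) : 0 ≤ frozenT lam α δ r s θ υ := by
  obtain ⟨ξ, σ, h3, h4, h5⟩ := frozenT_cases (lam := lam) h1 h2 hδ hδ' r s θ υ
  rw [h5]
  have a3 := frozenA_le_one hδ σ
  have a4 := frozenA_nonneg δ σ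
  nlinarith

/-- The elapsed time at `s = 1` agrees with the one at `s = 0`. -/
theorem frozenT_one (hlam : 0 < lam) (hlam' : lam ≤ 1 / 20) (h1 : 1 / 5 < α) (h2 : α < 1 / 3)
    (hδ : 0 < δ) (hδ' : δ ≤ 1 / 20) (r θ : ℝ) (υ : T) :
    frozenT lam α δ r 0 θ (υ + D lam r θ) = frozenT lam α δ r 1 θ υ := by
  unfold frozenT
  have a1 : frozenA δ (0 - 2) = 0 := frozenA_of_le hδ (by linarith)
  have a2 : frozenA δ 1 = 0 := frozenA_of_ge hδ (by linarith)
  rw [a1, a2]
  have e0 : θ + α * (0 - 0) = θ := by ring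
  have e1 : θ + α * (1 - 0) = θ + α := by ring
  have e2 : θ + α * (1 - 1) = θ := by ring
  have e3 : θ + α * (2 - 1) = θ + α := by ring
  have e4 : (1 : ℝ) - 1 = 0 := by ring
  have e5 : (1 : ℝ) - 2 = 0 - 1 := by ring
  rw [e0, e1, e2, e3, e4, e5]
  have key : frozenX δ r (θ + α) (υ + D lam r θ + D lam r (θ + α))
      = frozenX δ r (θ + α) (υ + D lam r (θ + α)) := by
    by_cases h : |cr (θ + α)| ≤ 1 / 20
    · have h3 := frozen_sep (θ := θ) (c := 1) (c' := 0) h1 h2 (k := -1) (by norm_num)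
        (by norm_num) (by norm_num) (by push_cast; ring) (by rwa [mul_one])
      rw [mul_zero, add_zero] at h3
      rw [D_zero_of_le hlam (hlam'.trans h3.le), add_zero]
    · rw [not_le] at h
      rw [frozenX_eq_zero hδ ((hδ'.trans h.le).trans (abs_cr_le_ee _ _ _)),
        frozenX_eq_zero hδ ((hδ'.trans h.le).trans (abs_cr_le_ee _ _ _))]
  rw [key]
  ring

/-- The slowed map on `M`. -/
noncomputable def frozenF (C : Coord b lam M e) (α δ : ℝ) (m : M) : M :=
  C.h (b.frz lam α δ (C.surj m).choose)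

theorem frozenF_h (C : Coord b lam M e) (hlam : 0 < lam) (hlam' : lam ≤ 1 / 20) (h1 : 1 / 5 < α)
    (h2 : α < 1 / 3) (hδ : 0 < δ) (hδ' : δ ≤ 1 / 20) (p : B × T) :
    frozenF C α δ (C.h p) = C.h (b.frz lam α δ p) := by
  have h := (C.surj (C.h p)).choose_spec
  unfold frozenF
  rcases C.inj _ _ h with h3 | h3
  · rw [h3]
  · have hp' : (C.surj (C.h p)).choose ∈ b.E := (C.hE _).1 h3
    have hp : p ∈ b.E := (C.hE _).1 (h ▸ h3)
    rw [b.frz_E hlam hlam' h1 h2 hδ hδ' hp', b.frz_E hlam hlam' h1 h2 hδ hδ' hp, h]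

theorem frozenF_bijective (C : Coord b lam M e) (hlam : 0 < lam) (hlam' : lam ≤ 1 / 20)
    (h1 : 1 / 5 < α) (h2 : α < 1 / 3) (hδ : 0 < δ) (hδ' : δ ≤ 1 / 20) :
    Function.Bijective (frozenF C α δ) := by
  have hbij := b.frz_bijective (lam := lam) h1 h2 hδ hδ'
  constructor
  · intro m m' h
    obtain ⟨p, rfl⟩ := C.surj m
    obtain ⟨p', rfl⟩ := C.surj m'
    rw [frozenF_h C hlam hlam' h1 h2 hδ hδ', frozenF_h C hlam hlam' h1 h2 hδ hδ'] at h
    rcases C.inj _ _ h with h3 | h3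
    · rw [hbij.injective h3]
    · have g1 : b.frz lam α δ p ∈ b.E := (C.hE _).1 h3
      have g2 : b.frz lam α δ p' ∈ b.E := (C.hE _).1 (h ▸ h3)
      have g3 : b.frz lam α δ p = p := by
        have := b.frz_E hlam hlam' h1 h2 hδ hδ' g1
        exact hbij.injective this
      have g4 : b.frz lam α δ p' = p' := by
        have := b.frz_E hlam hlam' h1 h2 hδ hδ' g2
        exact hbij.injective this
      rw [g3] at g1
      rw [g4] at g2
      rw [(C.hE _).2 g1, (C.hE _).2 g2]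
  · intro m
    obtain ⟨p, rfl⟩ := C.surj m
    obtain ⟨p', rfl⟩ := hbij.surjective p
    exact ⟨C.h p', frozenF_h C hlam hlam' h1 h2 hδ hδ' p'⟩

/-- The slowed map in the cut open space. -/
theorem frozenF_cut (C : Coord b lam M e) (hlam : 0 < lam) (hlam' : lam ≤ 1 / 20)
    (h1 : 1 / 5 < α) (h2 : α < 1 / 3) (hδ : 0 < δ) (hδ' : δ ≤ 1 / 20) (y : Y) {s : ℝ}
    (hs : 0 ≤ s) (hs' : s ≤ 1) (θ : ℝ) (υ : T) :
    (s + frozenT lam α δ (b.ρ y) s θ υ ≤ 1 →
      frozenF C α δ (b.cut lam C.h (y, s, θ, υ)) = b.cut lam C.h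
        (y, s + frozenT lam α δ (b.ρ y) s θ υ, θ + α * frozenT lam α δ (b.ρ y) s θ υ, υ)) ∧
    (1 ≤ s + frozenT lam α δ (b.ρ y) s θ υ →
      frozenF C α δ (b.cut lam C.h (y, s, θ, υ)) = b.cut lam C.h
        (y, s + frozenT lam α δ (b.ρ y) s θ υ - 1, θ + α * frozenT lam α δ (b.ρ y) s θ υ,
          υ + D lam (b.ρ y) (θ + α * (1 - s)))) := by
  have ht1 := frozenT_le_one (lam := lam) (α := α) (δ := δ) (b.ρ y) s θ υ
  have ht0 := frozenT_nonneg (lam := lam) h1 h2 hδ hδ' (b.ρ y) s θ υ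
  rcases lt_or_eq_of_le hs' with hs1 | hs1
  · have hc : b.cut lam C.h (y, s, θ, υ) = C.h (b.β (y, s, θ), υ) := by
      unfold Base.cut
      simp only
      rw [if_pos hs1, add_zero]
    rw [hc, frozenF_h C hlam hlam' h1 h2 hδ hδ', b.frz_β hlam hlam' h1 h2 hδ hδ' y hs hs1]
    generalize ht : frozenT lam α δ (b.ρ y) s θ υ = t at *
    constructor
    · intro h
      unfold Base.cut
      simp only
      rcases lt_or_eq_of_le h with h3 | h3
      · rw [if_pos h3, if_pos h3]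
      · rw [if_neg (by linarith), if_neg (by linarith)]
        have : 1 - s = t := by linarith
        rw [this]
    · intro h
      unfold Base.cut
      simp only
      rw [if_neg (not_lt.2 h), if_pos (by linarith), add_zero]
      have hβ := b.β_add_s y (s + t) (θ + α * t) (-1)
      push_cast at hβ
      rw [← sub_eq_add_neg] at hβ
      rw [hβ]
  · subst hs1
    have hβ1 : b.β (y, 1, θ) = b.β (y, 0, θ) := by
      have := b.β_add_s y 0 θ 1
      push_cast at this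
      rw [zero_add] at this
      exact this
    have hc : b.cut lam C.h (y, 1, θ, υ) = C.h (b.β (y, 0, θ), υ + D lam (b.ρ y) θ) := by
      unfold Base.cut
      simp only
      rw [if_neg (lt_irrefl _), hβ1]
    have hT := frozenT_one hlam hlam' h1 h2 hδ hδ' (b.ρ y) θ υ
    rw [hc, frozenF_h C hlam hlam' h1 h2 hδ hδ',
      b.frz_β hlam hlam' h1 h2 hδ hδ' y le_rfl zero_lt_one, hT]
    generalize ht : frozenT lam α δ (b.ρ y) 1 θ υ = t at *
    constructor
    · intro h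
      have ht2 : t = 0 := by linarith
      subst ht2
      unfold Base.cut
      simp [hβ1]
    · intro _
      unfold Base.cut
      simp only [zero_add, add_sub_cancel_left, sub_self, mul_zero, add_zero, sub_zero, mul_one]
      by_cases h3 : t < 1
      · rw [if_pos h3, if_pos h3]
      · rw [if_neg h3, if_neg h3]
        have : t = 1 := by linarith
        rw [this, mul_one]

/-- Near a pole the cut open coordinates tend to `e`, uniformly in the fibre coordinate. -/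
theorem cut_pole (C : Coord b lam M e) {y₀ : Y} {s₀ θ₀ : ℝ} (hy : b.ρ y₀ = 0)
    (hs : s₀ = 0 ∨ s₀ = 1) (hθ : cr θ₀ = 0) {ε : ℝ} (hε : 0 < ε) :
    ∀ᶠ x : Y × ℝ × ℝ in 𝓝 (y₀, s₀, θ₀), 0 ≤ x.2.1 ∧ x.2.1 ≤ 1 →
      ∀ υ : T, dist (b.cut lam C.h (x.1, x.2.1, x.2.2, υ)) e < ε := by
  have h1 : ∀ υ ∈ (univ : Set T), ∀ᶠ z : (Y × ℝ × ℝ) × T in 𝓝 ((y₀, s₀, θ₀), υ),
      (0 ≤ z.1.2.1 ∧ z.1.2.1 ≤ 1 → dist (b.cut lam C.h (z.1.1, z.1.2.1, z.1.2.2, z.2)) e < ε) := by
    intro υ _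
    have hmem : (y₀, s₀, θ₀, υ) ∈ {q : Y × ℝ × ℝ × T | 0 ≤ q.2.1 ∧ q.2.1 ≤ 1} := by
      rcases hs with rfl | rfl <;> simp
    have h2 := C.kcont (y₀, s₀, θ₀, υ) hmem
    have h3 : b.cut lam C.h (y₀, s₀, θ₀, υ) = e := by
      unfold Base.cut
      rw [C.hE]
      obtain ⟨k, hk⟩ := (cr_eq_zero_iff θ₀).1 hθ
      refine ⟨y₀, hy.ge, ?_, Or.inl hy⟩
      simp only
      rw [b.β_eq]
      refine ⟨rfl, ?_, ⟨-k, by rw [hk]; push_cast; ring⟩⟩
      rcases hs with rfl | rfl
      · exact ⟨0, by simp⟩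
      · exact ⟨-1, by push_cast; ring⟩
    unfold ContinuousWithinAt at h2
    rw [h3] at h2
    have h4 : ∀ᶠ q in 𝓝[{q : Y × ℝ × ℝ × T | 0 ≤ q.2.1 ∧ q.2.1 ≤ 1}] (y₀, s₀, θ₀, υ),
        dist (b.cut lam C.h q) e < ε := h2 (ball_mem_nhds e hε)
    rw [eventually_nhdsWithin_iff] at h4
    have h5 : Continuous fun z : (Y × ℝ × ℝ) × T => (z.1.1, z.1.2.1, z.1.2.2, z.2) := by fun_prop
    have h6 := (h5.tendsto ((y₀, s₀, θ₀), υ)).eventually h4
    filter_upwards [h6] with z hz hz'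
    exact hz hz'
  have h2 := (isCompact_univ (X := T)).eventually_forall_of_forall_eventually
    (P := fun (x : Y × ℝ × ℝ) (υ : T) => (0 ≤ x.2.1 ∧ x.2.1 ≤ 1 →
      dist (b.cut lam C.h (x.1, x.2.1, x.2.2, υ)) e < ε)) h1
  filter_upwards [h2] with x hx hx' υ
  exact hx υ trivial hx'

/-- The slowed map is continuous in the cut open coordinates. -/
theorem frozenF_cut_continuousOn (C : Coord b lam M e) (hlam : 0 < lam) (hlam' : lam ≤ 1 / 20)
    (h1 : 1 / 5 < α) (h2 : α < 1 / 3) (hδ : 0 < δ) (hδ' : δ ≤ 1 / 20) :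
    ContinuousOn (fun q => frozenF C α δ (b.cut lam C.h q))
      {q : Y × ℝ × ℝ × T | 0 ≤ q.2.1 ∧ q.2.1 ≤ 1} := by
  set S : Set (Y × ℝ × ℝ × T) := {q | 0 ≤ q.2.1 ∧ q.2.1 ≤ 1} with hS
  set t : Y × ℝ × ℝ × T → ℝ := fun q => frozenT lam α δ (b.ρ q.1) q.2.1 q.2.2.1 q.2.2.2 with ht
  have htc : Continuous t := frozenT_continuous b hlam hlam'
  have ht0 : ∀ q, 0 ≤ t q := fun q => frozenT_nonneg h1 h2 hδ hδ' _ _ _ _
  have ht1 : ∀ q, t q ≤ 1 := fun q => frozenT_le_one _ _ _ _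
  have hcs : Continuous fun q : Y × ℝ × ℝ × T => q.2.1 := by fun_prop
  have hSc : IsClosed S := by
    rw [hS]
    exact (isClosed_le continuous_const hcs).inter (isClosed_le hcs continuous_const)
  set A1 : Set (Y × ℝ × ℝ × T) := S ∩ {q | q.2.1 + t q ≤ 1} with hA1
  set A2 : Set (Y × ℝ × ℝ × T) := S ∩ {q | 1 ≤ q.2.1 + t q} with hA2
  have hA1c : IsClosed A1 := hSc.inter (isClosed_le (hcs.add htc) continuous_const)
  have hA2c : IsClosed A2 := hSc.inter (isClosed_le continuous_const (hcs.add htc))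
  have hU : S = A1 ∪ A2 := by
    ext q
    constructor
    · intro hq
      rcases le_total (q.2.1 + t q) 1 with h | h
      · exact Or.inl ⟨hq, h⟩
      · exact Or.inr ⟨hq, h⟩
    · rintro (h | h)
      · exact h.1
      · exact h.1
  rw [hU]
  refine ContinuousOn.union_of_isClosed ?_ ?_ hA1c hA2c
  · -- no crossing
    set g : Y × ℝ × ℝ × T → Y × ℝ × ℝ × T :=
      fun q => (q.1, q.2.1 + t q, q.2.2.1 + α * t q, q.2.2.2) with hg
    have hgc : Continuous g := by rw [hg]; fun_prop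
    have hmaps : MapsTo g A1 S := by
      intro q hq
      exact ⟨add_nonneg hq.1.1 (ht0 q), hq.2⟩
    refine (C.kcont.comp hgc.continuousOn hmaps).congr ?_
    intro q hq
    exact (frozenF_cut C hlam hlam' h1 h2 hδ hδ' q.1 hq.1.1 hq.1.2 q.2.2.1 q.2.2.2).1 hq.2
  · -- crossing
    set g : Y × ℝ × ℝ × T → Y × ℝ × ℝ × T :=
      fun q => (q.1, q.2.1 + t q - 1, q.2.2.1 + α * t q,
        q.2.2.2 + D lam (b.ρ q.1) (q.2.2.1 + α * (1 - q.2.1))) with hg
    have hmaps : MapsTo g A2 S := by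
      intro q hq
      have h3 := hq.2
      have h4 := ht1 q
      have h5 := hq.1.2
      simp only [mem_ofPred_eq] at h3
      exact ⟨by simp only [hg]; linarith, by simp only [hg]; linarith⟩
    have hval : ∀ q ∈ A2, frozenF C α δ (b.cut lam C.h q) = b.cut lam C.h (g q) := fun q hq =>
      (frozenF_cut C hlam hlam' h1 h2 hδ hδ' q.1 hq.1.1 hq.1.2 q.2.2.1 q.2.2.2).2 hq.2
    suffices h : ContinuousOn (fun q => b.cut lam C.h (g q)) A2 from h.congr hval
    intro q₀ hq₀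
    by_cases hp : b.ρ q₀.1 = 0 ∧ cr (q₀.2.2.1 + α * (1 - q₀.2.1)) = 0
    · -- at a pole
      obtain ⟨hp1, hp2⟩ := hp
      have hee : ∀ υ : T, ee (b.ρ q₀.1) (q₀.2.2.1 + α * (1 - q₀.2.1)) υ = 0 := fun υ =>
        ee_eq_zero_iff.2 ⟨hp2, hp1.ge, Or.inl hp1⟩
      have hcr : |cr (q₀.2.2.1 + α * (1 - q₀.2.1))| ≤ 1 / 20 := by rw [hp2]; norm_num
      have e0 := frozen_sep (c' := 0 - q₀.2.1) h1 h2 (k := -1) (by norm_num) (by norm_num)
        (by norm_num) (by push_cast; ring) hcr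
      have e2 := frozen_sep (c' := 2 - q₀.2.1) h1 h2 (k := 1) (by norm_num) (by norm_num)
        (by norm_num) (by push_cast; ring) hcr
      have hs0 : 0 ≤ q₀.2.1 := hq₀.1.1
      have hs1 : q₀.2.1 ≤ 1 := hq₀.1.2
      have htq : t q₀ = 1 - (q₀.2.1 + δ) / (1 + δ) := by
        simp only [ht]
        unfold frozenT
        have hA : frozenA δ (q₀.2.1 - 1) = (q₀.2.1 + δ) / (1 + δ) := by
          rw [frozenA_left hδ (by linarith) (by linarith)]
          congr 1
          ring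
        rw [frozenX_eq_zero hδ ((hδ'.trans e0.le).trans (abs_cr_le_ee _ _ _)),
          frozenX_eq_zero hδ ((hδ'.trans e2.le).trans (abs_cr_le_ee _ _ _)),
          frozenX_eq_one (hee _), hA]
        ring
      have hs : q₀.2.1 = 1 := by
        have h3 : 1 ≤ q₀.2.1 + t q₀ := hq₀.2
        rw [htq] at h3
        have h4 : (q₀.2.1 + δ) / (1 + δ) ≤ q₀.2.1 := by linarith
        rw [div_le_iff₀ (by linarith)] at h4
        nlinarith
      have ht00 : t q₀ = 0 := by
        rw [htq, hs, div_self (by linarith)]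
        ring
      have hθ0 : cr q₀.2.2.1 = 0 := by
        rw [hs] at hp2
        simpa using hp2
      have hval0 : b.cut lam C.h (g q₀) = e := by
        have hgq : g q₀ = (q₀.1, 0, q₀.2.2.1,
            q₀.2.2.2 + D lam (b.ρ q₀.1) (q₀.2.2.1 + α * (1 - q₀.2.1))) := by
          simp only [hg, hs, ht00]
          norm_num
        rw [hgq]
        by_contra hne
        have h4 := (cut_pole C (s₀ := 0) hp1 (Or.inl rfl) hθ0 (dist_pos.2 hne)).self_of_nhds
          ⟨le_rfl, zero_le_one⟩ (q₀.2.2.2 + D lam (b.ρ q₀.1) (q₀.2.2.1 + α * (1 - q₀.2.1)))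
        exact lt_irrefl _ h4
      unfold ContinuousWithinAt
      simp only [hval0]
      rw [Metric.tendsto_nhds]
      intro ε hε
      have h3 := cut_pole C (s₀ := 0) hp1 (Or.inl rfl) hθ0 hε
      set g' : Y × ℝ × ℝ × T → Y × ℝ × ℝ :=
        fun q => (q.1, q.2.1 + t q - 1, q.2.2.1 + α * t q) with hg'
      have hgc : Continuous g' := by rw [hg']; fun_prop
      have hg0 : g' q₀ = (q₀.1, 0, q₀.2.2.1) := by
        simp only [hg', hs, ht00]
        norm_num
      have h4 := hgc.tendsto q₀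
      rw [hg0] at h4
      have h5 := h4.eventually h3
      rw [eventually_nhdsWithin_iff]
      filter_upwards [h5] with q hq hqA
      exact hq (hmaps hqA) _
    · -- the twist is continuous
      have hD : ContinuousAt (fun q : Y × ℝ × ℝ × T =>
          D lam (b.ρ q.1) (q.2.2.1 + α * (1 - q.2.1))) q₀ := by
        have hf : Continuous fun q : Y × ℝ × ℝ × T => (b.ρ q.1, q.2.2.1 + α * (1 - q.2.1)) := by
          have := b.ρ_cont
          fun_prop
        exact ContinuousAt.comp (g := fun x : ℝ × ℝ => D lam x.1 x.2)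
          (f := fun q : Y × ℝ × ℝ × T => (b.ρ q.1, q.2.2.1 + α * (1 - q.2.1)))
          (D_continuousAt hlam hlam' hp) hf.continuousAt
      have hgc : ContinuousAt g q₀ := by
        rw [hg]
        refine ContinuousAt.prodMk (by fun_prop) (ContinuousAt.prodMk (by fun_prop)
          (ContinuousAt.prodMk (by fun_prop) (ContinuousAt.add (by fun_prop) hD)))
      exact (C.kcont (g q₀) (hmaps hq₀)).comp hgc.continuousWithinAt hmaps

/-- The outer part of the coordinates. -/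
theorem frozenF_outer (C : Coord b lam M e) (hlam : 0 < lam) (hlam' : lam ≤ 1 / 20)
    (h1 : 1 / 5 < α) (h2 : α < 1 / 3) (hδ : 0 < δ) (hδ' : δ ≤ 1 / 20) {z : B}
    (hz : z ∉ b.β '' {q | -(1 / 20) < b.ρ q.1}) (υ : T) :
    frozenF C α δ (C.h (z, υ)) = C.h (b.R α z, υ) := by
  rw [frozenF_h C hlam hlam' h1 h2 hδ hδ']
  congr 1
  by_cases hr : z ∈ range b.β
  · obtain ⟨y, s, θ, hs, hs', -, rfl⟩ := b.exists_rep hr
    have hρ : b.ρ y ≤ -(1 / 20) := by
      by_contra hcon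
      exact hz ⟨(y, s, θ), not_le.1 hcon, rfl⟩
    have hX : ∀ θ' (υ' : T), frozenX δ (b.ρ y) θ' υ' = 0 := fun θ' υ' =>
      frozenX_eq_zero hδ (le_trans (by linarith) (neg_le_ee _ _ _))
    have hT : frozenT lam α δ (b.ρ y) s θ υ = 1 := by
      unfold frozenT
      rw [hX, hX, hX]
      ring
    rw [b.frz_β hlam hlam' h1 h2 hδ hδ' y hs hs', hT, D_nonpos (by linarith), ite_self, add_zero,
      mul_one, b.R_β]
    have := b.β_add_s y s (θ + α) 1
    push_cast at this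
    rw [this]
  · have hW : (z, υ) ∉ b.Wm lam α δ := by
      rintro ⟨y, θ, σ, υ', -, -, -, h5⟩
      exact hr ⟨_, (congrArg Prod.fst h5).symm⟩
    unfold Base.frz
    rw [b.slow_off hW, b.L_off lam α hr]

/-- Each point of `M` has cut open coordinates in a compact set or is in the outer part. -/
theorem cut_cover (C : Coord b lam M e) (m : M) :
    (∃ q : Y × ℝ × ℝ × T, -(1 / 20) ≤ b.ρ q.1 ∧ (0 ≤ q.2.1 ∧ q.2.1 ≤ 1) ∧
      (0 ≤ q.2.2.1 ∧ q.2.2.1 ≤ 1) ∧ b.cut lam C.h q = m) ∨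
    ∃ z υ, z ∉ b.β '' {q | -(1 / 20) < b.ρ q.1} ∧ C.h (z, υ) = m := by
  obtain ⟨⟨z, υ⟩, rfl⟩ := C.surj m
  by_cases hz : z ∈ b.β '' {q | -(1 / 20) < b.ρ q.1}
  · left
    obtain ⟨⟨y, s, θ⟩, hy, rfl⟩ := hz
    refine ⟨(y, Int.fract s, Int.fract θ, υ), le_of_lt hy,
      ⟨Int.fract_nonneg _, (Int.fract_lt_one _).le⟩,
      ⟨Int.fract_nonneg _, (Int.fract_lt_one _).le⟩, ?_⟩
    unfold Base.cut
    simp only
    rw [if_pos (Int.fract_lt_one _), add_zero]
    congr 2
    rw [b.β_eq]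
    exact ⟨rfl, ⟨⌊s⌋, (Int.fract_add_floor s).symm⟩, ⟨⌊θ⌋, (Int.fract_add_floor θ).symm⟩⟩
  · exact Or.inr ⟨z, υ, hz, rfl⟩

/-- The compact set of cut open coordinates. -/
theorem isCompact_cutDom (b : Base X Y B) :
    IsCompact {q : Y × ℝ × ℝ × T | -(1 / 20) ≤ b.ρ q.1 ∧ (0 ≤ q.2.1 ∧ q.2.1 ≤ 1) ∧
      (0 ≤ q.2.2.1 ∧ q.2.2.1 ≤ 1)} := by
  have h := b.ρ_cpt.prod ((isCompact_Icc (a := (0 : ℝ)) (b := 1)).prod
    ((isCompact_Icc (a := (0 : ℝ)) (b := 1)).prod (isCompact_univ (X := T))))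
  convert h using 1
  ext q
  simp [mem_prod]

/-- The outer domain is closed. -/
theorem isClosed_outer (b : Base X Y B) :
    IsClosed {p : B × T | p.1 ∉ b.β '' {q | -(1 / 20) < b.ρ q.1}} := by
  have h1 : IsOpen (b.β '' {q : Y × ℝ × ℝ | -(1 / 20) < b.ρ q.1}) :=
    b.β_open _ (isOpen_lt continuous_const (b.ρ_cont.comp continuous_fst))
  have h2 : IsClosed {p : B × T | p.1 ∉ b.β '' {q | -(1 / 20) < b.ρ q.1}} :=
    (h1.preimage continuous_fst).isClosed_compl
  exact h2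

theorem frozenF_continuous [CompactSpace B] (C : Coord b lam M e) (hlam : 0 < lam)
    (hlam' : lam ≤ 1 / 20) (h1 : 1 / 5 < α) (h2 : α < 1 / 3) (hδ : 0 < δ) (hδ' : δ ≤ 1 / 20) :
    Continuous (frozenF C α δ) := by
  rw [continuous_iff_isClosed]
  intro Z hZ
  set Q1 : Set (Y × ℝ × ℝ × T) := {q | -(1 / 20) ≤ b.ρ q.1 ∧ (0 ≤ q.2.1 ∧ q.2.1 ≤ 1) ∧
      (0 ≤ q.2.2.1 ∧ q.2.2.1 ≤ 1)} with hQ1
  set Q2 : Set (B × T) := {p | p.1 ∉ b.β '' {q | -(1 / 20) < b.ρ q.1}} with hQ2
  have hQ1c : IsCompact Q1 := isCompact_cutDom b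
  have hQ2c : IsClosed Q2 := isClosed_outer b
  have hsub : Q1 ⊆ {q : Y × ℝ × ℝ × T | 0 ≤ q.2.1 ∧ q.2.1 ≤ 1} := fun q hq => hq.2.1
  have hF1 : ContinuousOn (fun q => frozenF C α δ (b.cut lam C.h q)) Q1 :=
    (frozenF_cut_continuousOn C hlam hlam' h1 h2 hδ hδ').mono hsub
  have hk1 : ContinuousOn (b.cut lam C.h) Q1 := C.kcont.mono hsub
  have houter : ∀ z, z ∉ b.β '' {q : Y × ℝ × ℝ | -(1 / 20) < b.ρ q.1} →
      z ∉ b.β '' {q : Y × ℝ × ℝ | 0 ≤ b.ρ q.1} := by
    rintro z hz ⟨q, hq, rfl⟩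
    have hq' : (0 : ℝ) ≤ b.ρ q.1 := hq
    exact hz ⟨q, show -(1 / 20 : ℝ) < b.ρ q.1 by linarith, rfl⟩
  have hh2 : ContinuousOn C.h Q2 := fun p hp =>
    (C.ocont p.1 p.2 (houter _ hp)).continuousWithinAt
  have hF2 : ContinuousOn (fun p => frozenF C α δ (C.h p)) Q2 := by
    have hc : ContinuousOn (fun p : B × T => C.h (b.R α p.1, p.2)) Q2 := by
      intro p hp
      have hR : b.R α p.1 ∉ b.β '' {q : Y × ℝ × ℝ | 0 ≤ b.ρ q.1} := by
        rintro ⟨⟨y, s, θ⟩, hq, h3⟩
        have hq' : (0 : ℝ) ≤ b.ρ y := hq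
        refine hp ⟨(y, s, θ + -α), show -(1 / 20 : ℝ) < b.ρ y by linarith, ?_⟩
        rw [← b.R_β, h3, b.R_neg_R]
      have hf : ContinuousAt (fun p : B × T => (b.R α p.1, p.2)) p := by
        have : Continuous fun p : B × T => (b.R α p.1, p.2) :=
          ((b.R α).continuous.comp continuous_fst).prodMk continuous_snd
        exact this.continuousAt
      exact (ContinuousAt.comp (g := C.h) (f := fun p : B × T => (b.R α p.1, p.2))
        (C.ocont _ _ hR) hf).continuousWithinAt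
    exact hc.congr fun p hp => frozenF_outer C hlam hlam' h1 h2 hδ hδ' hp p.2
  have hpre : frozenF C α δ ⁻¹' Z
      = b.cut lam C.h '' (Q1 ∩ (fun q => frozenF C α δ (b.cut lam C.h q)) ⁻¹' Z)
        ∪ C.h '' (Q2 ∩ (fun p => frozenF C α δ (C.h p)) ⁻¹' Z) := by
    ext m
    constructor
    · intro hm
      rcases cut_cover C m with ⟨q, hq1, hq2, hq3, rfl⟩ | ⟨z, υ, hz, rfl⟩
      · exact Or.inl ⟨q, ⟨⟨hq1, hq2, hq3⟩, hm⟩, rfl⟩
      · exact Or.inr ⟨(z, υ), ⟨hz, hm⟩, rfl⟩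
    · rintro (⟨q, ⟨-, hq⟩, rfl⟩ | ⟨p, ⟨-, hp⟩, rfl⟩)
      · exact hq
      · exact hp
  rw [hpre]
  refine IsClosed.union ?_ ?_
  · have hcl : IsClosed (Q1 ∩ (fun q => frozenF C α δ (b.cut lam C.h q)) ⁻¹' Z) :=
      hF1.preimage_isClosed_of_isClosed hQ1c.isClosed hZ
    have hcp := hQ1c.of_isClosed_subset hcl inter_subset_left
    exact (hcp.image_of_continuousOn (hk1.mono inter_subset_left)).isClosed
  · have hcl : IsClosed (Q2 ∩ (fun p => frozenF C α δ (C.h p)) ⁻¹' Z) :=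
      hF2.preimage_isClosed_of_isClosed hQ2c hZ
    exact (hcl.isCompact.image_of_continuousOn (hh2.mono inter_subset_left)).isClosed

/-- FROZEN. -/
theorem frozen [CompactSpace B] [CompactSpace M] (b : Base X Y B) (e : M) :
    Frozen_Stmt b M e := by
  intro lam α δ C hlam hlam' h1 h2 hδ hδ'
  have hc := frozenF_continuous C hlam hlam' h1 h2 hδ hδ'
  have hb := frozenF_bijective C hlam hlam' h1 h2 hδ hδ'
  have hF := frozenF_h C hlam hlam' h1 h2 hδ hδ'
  let f : M ≃ₜ M := hc.homeoOfEquivCompactToT2 (f := Equiv.ofBijective _ hb)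
  have hf : ∀ m, f m = frozenF C α δ m := fun m => rfl
  have hbij := b.frz_bijective (lam := lam) h1 h2 hδ hδ'
  refine ⟨f, ?_, ?_, ?_, ?_, ?_⟩
  · obtain ⟨p, hp⟩ := C.surj e
    have hpE : p ∈ b.E := (C.hE p).1 hp
    have h3 := hF p
    rw [b.frz_E hlam hlam' h1 h2 hδ hδ' hpE] at h3
    have h4 : ∀ m, C.h p = m → frozenF C α δ m = m := by
      rintro m rfl
      exact h3
    exact h4 e hp
  · intro p hp
    rw [hf, hF]
    unfold Base.frz
    rw [b.slow_off hp]
  · intro p hp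
    rw [Homeomorph.symm_apply_eq, hf, hF]
    have hp' : (b.L lam α).symm p ∉ b.Wm lam α δ := by
      intro h
      have := (b.L_mem_Wt_iff hlam hlam' h1 h2 hδ hδ' _).2 h
      rw [Equiv.apply_symm_apply] at this
      exact hp this
    unfold Base.frz
    rw [b.slow_off hp', Equiv.apply_symm_apply]
  · intro p hp
    rw [hf, hF]
    refine ⟨_, ?_, rfl⟩
    exact (b.L_mem_Wt_iff hlam hlam' h1 h2 hδ hδ' _).2 (b.slow_mem h1 h2 hδ hδ' hp)
  · intro p hp
    have hp' : (b.L lam α).symm p ∈ b.Wm lam α δ := by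
      rw [← b.L_mem_Wt_iff hlam hlam' h1 h2 hδ hδ', Equiv.apply_symm_apply]
      exact hp
    obtain ⟨p', hp1, hp2⟩ := b.slow_surj_mem h1 h2 hδ hδ' hp'
    refine ⟨p', hp1, ?_⟩
    rw [eq_comm, Homeomorph.symm_apply_eq, hf, hF]
    unfold Base.frz
    rw [hp2, Equiv.apply_symm_apply]

end

end Pool.Agent.EvenHomeo
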