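import Pool.Agent.Lib_helper30.EvenHomeo.Defs2

/-!
# KMAP: the push along the lines as a homeomorphism of `B × T`
-/

open Set Metric Topology

namespace Pool.Agent.EvenHomeo

open Pool.Agent.MinHomeo (RotChart)

variable {X : Type} [NormedAddCommGroup X] [NormedSpace ℝ X] {Y B : Type} [MetricSpace Y]
  [MetricSpace B]

theorem kmap_chi_nonneg (δ x : ℝ) : 0 ≤ chi δ x := le_max_left _ _

theorem kmap_chi_le_one (δ x : ℝ) : chi δ x ≤ 1 := max_le zero_le_one (min_le_left _ _)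

theorem kmap_chi_zero {δ x : ℝ} (hδ : 0 < δ) (h : δ ≤ x) : chi δ x = 0 := by
  unfold chi
  have h1 : 2 ≤ 2 * x / δ := by
    rw [le_div_iff₀ hδ]
    linarith
  have h2 : min 1 (2 - 2 * x / δ) ≤ 0 := (min_le_right _ _).trans (by linarith)
  exact max_eq_left h2

theorem kmap_chi_cont (δ : ℝ) : Continuous (chi δ) := by
  unfold chi
  fun_prop

/-- Points of two lines of slope `p / q` at nearby angles. -/
theorem kmap_sep (b : Base X Y B) {p q : ℕ} (hq : 1 ≤ q) (hpq : Nat.Coprime p q) {y y' : Y}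
    {θ θ' σ σ' : ℝ} (hd : |cr θ| + |cr θ'| < 1 / (q : ℝ)) (hσ : |σ - σ'| < q)
    (h : b.β (y, σ, θ + (p : ℝ) / q * σ) = b.β (y', σ', θ' + (p : ℝ) / q * σ')) :
    y = y' ∧ σ = σ' ∧ ∃ k : ℤ, θ' = θ + k := by
  obtain ⟨h1, ⟨k, hk⟩, l, hl⟩ := (b.β_eq _ _ _ _ _ _).1 h
  have hk0 : k = 0 := by
    by_contra hne
    have hdvd : ¬ (q : ℤ) ∣ k := by
      intro hdvd
      have h2 := Int.le_of_dvd (abs_pos.2 hne) ((dvd_abs _ _).2 hdvd)
      have h3 : ((q : ℤ) : ℝ) ≤ ((|k| : ℤ) : ℝ) := by exact_mod_cast h2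
      rw [hk] at hσ
      rw [show σ - (σ + k) = -(k : ℝ) by ring, abs_neg] at hσ
      push_cast at h3
      linarith
    have h2 := le_abs_cr_frac hq hpq hdvd
    have h3 : (p : ℝ) / q * k = (θ - θ') + l := by
      rw [hk] at hl
      linarith
    rw [h3, cr_add_int] at h2
    have h4 := abs_cr_sub θ θ'
    linarith
  subst hk0
  have hk' : σ' = σ := by simpa using hk
  refine ⟨h1, hk'.symm, l, ?_⟩
  rw [hk'] at hl
  linarith

/-- The shear. -/
noncomputable def kmapShear (Y : Type) [MetricSpace Y] (α : ℝ) :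
    (Y × ℝ × ℝ × T) ≃ₜ ((Y × ℝ × ℝ) × T) where
  toFun q := ((q.1, q.2.1, q.2.2.1 + α * q.2.1), q.2.2.2)
  invFun q := (q.1.1, q.1.2.1, q.1.2.2 - α * q.1.2.1, q.2)
  left_inv q := by
    obtain ⟨y, s, θ, υ⟩ := q
    simp
  right_inv q := by
    obtain ⟨⟨y, s, θ⟩, υ⟩ := q
    simp
  continuous_toFun := by fun_prop
  continuous_invFun := by fun_prop

theorem kmap_surj {f : ℝ → ℝ} (hf : Continuous f) {a c : ℝ}
    (h : ∀ σ, (σ ≤ a ∨ c ≤ σ) → f σ = σ) : Function.Surjective f := by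
  refine hf.surjective ?_ ?_
  · refine Filter.tendsto_id.congr' ?_
    filter_upwards [Filter.eventually_ge_atTop c] with σ hσ
    exact (h σ (Or.inr hσ)).symm
  · refine Filter.tendsto_id.congr' ?_
    filter_upwards [Filter.eventually_le_atBot a] with σ hσ
    exact (h σ (Or.inl hσ)).symm

/-- A push on one side of the crossing. -/
theorem kmap_half [CompactSpace B] (b : Base X Y B) (hTr : Transport_Stmt) {p q : ℕ}
    (hq : 1 ≤ q) (hpq : Nat.Coprime p q) {δ₁ : ℝ} (hδ : 0 < δ₁) (hδ' : δ₁ ≤ 1 / 20)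
    (h2δ : 2 * δ₁ < 1 / (q : ℝ)) (w : ℝ → ℝ → T → ℝ)
    (hw : Continuous fun x : ℝ × ℝ × T => w x.1 x.2.1 x.2.2)
    (hw1 : ∀ r θ υ, |cr θ| ≤ w r θ υ) (hw2 : ∀ r θ υ, -r ≤ w r θ υ)
    (hwp : ∀ r θ υ (k : ℤ), w r (θ + k) υ = w r θ υ)
    (κ : ℝ → ℝ → ℝ) (hκ : Continuous fun x : ℝ × ℝ => κ x.1 x.2)
    (hκm : ∀ χ, 0 ≤ χ → χ ≤ 1 → StrictMono (κ χ)) (hκ0 : ∀ σ, κ 0 σ = σ) {a c a' c' : ℝ}
    (ha : a' < a) (hc : c < c') (hac : c' - a' < q)
    (hoff : ∀ χ σ, 0 ≤ χ → χ ≤ 1 → (σ ≤ a ∨ c ≤ σ) → κ χ σ = σ) :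
    ∃ G : B × T ≃ₜ B × T,
      (∀ y θ σ υ, w (b.ρ y) θ υ ≤ δ₁ → a' < σ → σ < c' →
        G (b.β (y, σ, θ + (p : ℝ) / q * σ), υ) =
          (b.β (y, κ (chi δ₁ (w (b.ρ y) θ υ)) σ,
            θ + (p : ℝ) / q * κ (chi δ₁ (w (b.ρ y) θ υ)) σ), υ)) ∧
      ∀ z : B × T, (∀ y θ σ υ, |θ| ≤ δ₁ → w (b.ρ y) θ υ ≤ δ₁ → a ≤ σ → σ ≤ c →
        z ≠ (b.β (y, σ, θ + (p : ℝ) / q * σ), υ)) → G z = z := by
  have hq0 : (0 : ℝ) < q := by exact_mod_cast hq
  have hq1 : (1 : ℝ) ≤ q := by exact_mod_cast hq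
  have hqq : 1 / (q : ℝ) ≤ 1 := by
    rw [div_le_one hq0]
    exact hq1
  set g : Y × ℝ × ℝ × T → B × T :=
    fun x => (b.β (x.1, x.2.1, x.2.2.1 + (p : ℝ) / q * x.2.1), x.2.2.2) with hg
  set S : Set (Y × ℝ × ℝ × T) :=
    {x | (a' < x.2.1 ∧ x.2.1 < c') ∧ |x.2.2.1| < 1 / (2 * (q : ℝ))} with hS
  set K : Set (Y × ℝ × ℝ × T) :=
    {x | |x.2.2.1| ≤ δ₁ ∧ w (b.ρ x.1) x.2.2.1 x.2.2.2 ≤ δ₁ ∧ a ≤ x.2.1 ∧ x.2.1 ≤ c} with hK
  set χ : Y × ℝ × ℝ × T → ℝ :=
    fun x => chi δ₁ (max |x.2.2.1| (w (b.ρ x.1) x.2.2.1 x.2.2.2)) with hχ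
  set τ : Y × ℝ × ℝ × T → Y × ℝ × ℝ × T :=
    fun x => (x.1, κ (χ x) x.2.1, x.2.2.1, x.2.2.2) with hτ
  have hhalf : 1 / (2 * (q : ℝ)) = 1 / (q : ℝ) / 2 := by
    field_simp
  have hwc : Continuous fun x : Y × ℝ × ℝ × T => w (b.ρ x.1) x.2.2.1 x.2.2.2 := by
    have h1 : Continuous fun x : Y × ℝ × ℝ × T => (b.ρ x.1, x.2.2.1, x.2.2.2) := by
      have := b.ρ_cont
      fun_prop
    exact hw.comp h1
  have hχc : Continuous χ := by
    have h1 : Continuous fun x : Y × ℝ × ℝ × T => |x.2.2.1| := by fun_prop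
    exact (kmap_chi_cont δ₁).comp (h1.max hwc)
  have hχ0 : ∀ x, 0 ≤ χ x := fun x => kmap_chi_nonneg _ _
  have hχ1 : ∀ x, χ x ≤ 1 := fun x => kmap_chi_le_one _ _
  have hτc : Continuous τ := by
    have h1 : Continuous fun x : Y × ℝ × ℝ × T => κ (χ x) x.2.1 :=
      hκ.comp (hχc.prodMk (by fun_prop))
    rw [hτ]
    fun_prop
  have hτb : Function.Bijective τ := by
    constructor
    · rintro ⟨y, s, θ, υ⟩ ⟨y', s', θ', υ'⟩ h
      simp only [hτ, Prod.mk.injEq] at h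
      obtain ⟨h1, h2, h3, h4⟩ := h
      subst h1 h3 h4
      have h5 : χ (y, s, θ, υ) = χ (y, s', θ, υ) := rfl
      rw [h5] at h2
      have h6 := (hκm _ (hχ0 (y, s', θ, υ)) (hχ1 _)).injective h2
      rw [h6]
    · rintro ⟨y, s, θ, υ⟩
      have hsurj : Function.Surjective (κ (χ (y, s, θ, υ))) := by
        refine kmap_surj (a := a) (c := c) ?_ (fun σ hσ => hoff _ σ (hχ0 _) (hχ1 _) hσ)
        exact hκ.comp (continuous_const.prodMk continuous_id)
      obtain ⟨s', hs'⟩ := hsurj s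
      refine ⟨(y, s', θ, υ), ?_⟩
      have h5 : χ (y, s', θ, υ) = χ (y, s, θ, υ) := rfl
      simp only [hτ, h5, hs']
  have hτid : ∀ x, x ∉ K → τ x = x := by
    rintro ⟨y, s, θ, υ⟩ hx
    have hgoal : κ (χ (y, s, θ, υ)) s = s := by
      by_cases h1 : δ₁ < max |θ| (w (b.ρ y) θ υ)
      · have h2 : χ (y, s, θ, υ) = 0 := kmap_chi_zero hδ h1.le
        rw [h2, hκ0]
      · rw [not_lt, max_le_iff] at h1
        apply hoff _ _ (hχ0 _) (hχ1 _)
        by_contra hcon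
        rw [not_or, not_le, not_le] at hcon
        exact hx ⟨h1.1, h1.2, hcon.1.le, hcon.2.le⟩
    simp only [hτ, hgoal]
  have hKc : IsCompact K := by
    have h1 : IsCompact ({y | -(1 / 20) ≤ b.ρ y} ×ˢ (Icc a c ×ˢ (Icc (-δ₁) δ₁ ×ˢ
        (univ : Set T)))) :=
      b.ρ_cpt.prod (isCompact_Icc.prod (isCompact_Icc.prod isCompact_univ))
    refine h1.of_isClosed_subset ?_ ?_
    · have h2 : IsClosed {x : Y × ℝ × ℝ × T | |x.2.2.1| ≤ δ₁} :=
        isClosed_le (by fun_prop) continuous_const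
      have h3 : IsClosed {x : Y × ℝ × ℝ × T | w (b.ρ x.1) x.2.2.1 x.2.2.2 ≤ δ₁} :=
        isClosed_le hwc continuous_const
      have h4 : IsClosed {x : Y × ℝ × ℝ × T | a ≤ x.2.1} :=
        isClosed_le continuous_const (by fun_prop)
      have h5 : IsClosed {x : Y × ℝ × ℝ × T | x.2.1 ≤ c} :=
        isClosed_le (by fun_prop) continuous_const
      exact h2.inter (h3.inter (h4.inter h5))
    · rintro ⟨y, s, θ, υ⟩ ⟨h2, h3, h4, h5⟩
      simp only at h2 h3 h4 h5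
      refine ⟨?_, ⟨h4, h5⟩, abs_le.1 h2, mem_univ _⟩
      have h6 := hw2 (b.ρ y) θ υ
      show -(1 / 20) ≤ b.ρ y
      linarith
  have hKS : K ⊆ S := by
    rintro ⟨y, s, θ, υ⟩ ⟨h2, h3, h4, h5⟩
    simp only at h2 h3 h4 h5
    refine ⟨⟨lt_of_lt_of_le ha h4, lt_of_le_of_lt h5 hc⟩, ?_⟩
    show |θ| < 1 / (2 * (q : ℝ))
    rw [hhalf]
    linarith
  have hSo : IsOpen S := by
    have h2 : IsOpen {x : Y × ℝ × ℝ × T | |x.2.2.1| < 1 / (2 * (q : ℝ))} :=
      isOpen_lt (by fun_prop) continuous_const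
    have h4 : IsOpen {x : Y × ℝ × ℝ × T | a' < x.2.1} :=
      isOpen_lt continuous_const (by fun_prop)
    have h5 : IsOpen {x : Y × ℝ × ℝ × T | x.2.1 < c'} :=
      isOpen_lt (by fun_prop) continuous_const
    exact (h4.inter h5).inter h2
  have hgc : Continuous g := by
    have := b.β_cont
    rw [hg]
    fun_prop
  have hgo : IsOpenMap g := by
    have h1 : IsOpenMap (Prod.map b.β (id : T → T)) := b.β_open.prodMap IsOpenMap.id
    exact h1.comp (kmapShear Y ((p : ℝ) / q)).isOpenMap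
  have hinj : InjOn g S := by
    rintro ⟨y, s, θ, υ⟩ ⟨⟨h1, h2⟩, h3⟩ ⟨y', s', θ', υ'⟩ ⟨⟨h1', h2'⟩, h3'⟩ h
    simp only [hg, Prod.mk.injEq] at h h1 h2 h3 h1' h2' h3'
    rw [hhalf] at h3 h3'
    have h4 := abs_cr_le θ
    have h5 := abs_cr_le θ'
    obtain ⟨h6, h7, k, h8⟩ := kmap_sep b hq hpq (by linarith)
      (by rw [abs_lt]; constructor <;> linarith) h.1
    have h9 : k = 0 := by
      by_contra hne
      have h10 : (1 : ℝ) ≤ |(k : ℝ)| := by exact_mod_cast Int.one_le_abs hne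
      have h11 : (k : ℝ) = θ' - θ := by linarith
      rw [h11] at h10
      have := abs_sub θ' θ
      linarith
    rw [h9] at h8
    simp only [Int.cast_zero, add_zero] at h8
    rw [h6, h7, h8, h.2]
  obtain ⟨G, hG1, hG2⟩ := hTr (Y × ℝ × ℝ × T) (B × T) g S K τ hSo hgo hgc.continuousOn hinj hKc
    hKS hτc hτb hτid
  refine ⟨G, ?_, ?_⟩
  · intro y θ σ υ h1 h2 h3
    have h4 : |cr θ| ≤ δ₁ := (hw1 _ _ _).trans h1
    have h5 : θ = cr θ + (round θ : ℤ) := by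
      unfold cr
      ring
    have h6 : w (b.ρ y) (cr θ) υ = w (b.ρ y) θ υ := by
      have := hwp (b.ρ y) (cr θ) υ (round θ)
      rw [← h5] at this
      exact this.symm
    have h7 : ∀ s, b.β (y, s, θ + (p : ℝ) / q * s) = b.β (y, s, cr θ + (p : ℝ) / q * s) := by
      intro s
      have := b.β_add_θ y s (cr θ + (p : ℝ) / q * s) (round θ)
      rw [← this]
      congr 3
      linarith
    have h8 : (y, σ, cr θ, υ) ∈ S := by
      refine ⟨⟨h2, h3⟩, ?_⟩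
      show |cr θ| < 1 / (2 * (q : ℝ))
      rw [hhalf]
      linarith
    have h9 := hG1 _ h8
    have h10 : χ (y, σ, cr θ, υ) = chi δ₁ (w (b.ρ y) θ υ) := by
      show chi δ₁ (max |cr θ| (w (b.ρ y) (cr θ) υ)) = chi δ₁ (w (b.ρ y) θ υ)
      rw [h6, max_eq_right (hw1 _ _ _)]
    simp only [hg, hτ, h10] at h9
    rw [h7, h7, h9]
  · intro z hz
    apply hG2
    rintro ⟨⟨y, s, θ, υ⟩, ⟨h1, h2, h3, h4⟩, h5⟩
    exact hz y θ s υ h1 h2 h3 h4 h5.symm

/-- the fibre map on the right -/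
noncomputable def kmapR (κ : ℝ → ℝ → ℝ) (χ σ : ℝ) : ℝ := κ χ (max σ 0) + min σ 0

/-- the fibre map on the left -/
noncomputable def kmapL (κ : ℝ → ℝ → ℝ) (χ σ : ℝ) : ℝ := κ χ (min σ 0) + max σ 0

/-- KMAP. -/
theorem kmap [CompactSpace B] (b : Base X Y B) (hTr : Transport_Stmt) : KMap_Stmt b := by
  intro lam p q n c η₁ δ₁ κ hlam hlam' hq hpq h1 h2 hn hnq hc hc1 hκ hδ hδ' hlδ
  have hq0 : (0 : ℝ) < q := by exact_mod_cast hq
  have hnq' : 2 * (n : ℝ) + 6 < q := by exact_mod_cast hnq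
  have hn1 : (1 : ℝ) ≤ n := by exact_mod_cast hn
  have h2δ : 2 * δ₁ < 1 / (q : ℝ) := by linarith
  have hκz : ∀ χ, 0 ≤ χ → χ ≤ 1 → κ χ 0 = 0 := fun χ h0 h1 =>
    hκ.near χ 0 h0 h1 (by rw [abs_zero]; exact hc.le)
  -- the right part
  have hRc : Continuous fun x : ℝ × ℝ => kmapR κ x.1 x.2 := by
    unfold kmapR
    have h3 : Continuous fun x : ℝ × ℝ => κ x.1 (max x.2 0) :=
      hκ.cont.comp (continuous_fst.prodMk (continuous_snd.max continuous_const))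
    exact h3.add (continuous_snd.min continuous_const)
  have hLc : Continuous fun x : ℝ × ℝ => kmapL κ x.1 x.2 := by
    unfold kmapL
    have h3 : Continuous fun x : ℝ × ℝ => κ x.1 (min x.2 0) :=
      hκ.cont.comp (continuous_fst.prodMk (continuous_snd.min continuous_const))
    exact h3.add (continuous_snd.max continuous_const)
  have hRm : ∀ χ, 0 ≤ χ → χ ≤ 1 → StrictMono (kmapR κ χ) := by
    intro χ h3 h4 σ σ' h5
    unfold kmapR
    have hm := hκ.mono χ h3 h4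
    rcases le_or_gt σ' 0 with h6 | h6
    · rw [max_eq_right h6, max_eq_right (h5.le.trans h6), min_eq_left h6,
        min_eq_left (h5.le.trans h6)]
      linarith
    · have h7 : κ χ (max σ 0) < κ χ (max σ' 0) := by
        apply hm
        rw [max_eq_left h6.le]
        exact max_lt h5 h6
      have h8 : min σ 0 ≤ min σ' 0 := min_le_min h5.le le_rfl
      linarith
  have hLm : ∀ χ, 0 ≤ χ → χ ≤ 1 → StrictMono (kmapL κ χ) := by
    intro χ h3 h4 σ σ' h5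
    unfold kmapL
    have hm := hκ.mono χ h3 h4
    rcases le_or_gt 0 σ with h6 | h6
    · rw [min_eq_right h6, min_eq_right (h6.trans h5.le), max_eq_left h6,
        max_eq_left (h6.trans h5.le)]
      linarith
    · have h7 : κ χ (min σ 0) < κ χ (min σ' 0) := by
        apply hm
        rw [min_eq_left h6.le]
        exact lt_min h5 h6
      have h8 : max σ 0 ≤ max σ' 0 := max_le_max h5.le le_rfl
      linarith
  have hRoff : ∀ χ σ, 0 ≤ χ → χ ≤ 1 → (σ ≤ c ∨ (n : ℝ) + 1 ≤ σ) → kmapR κ χ σ = σ := by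
    intro χ σ h3 h4 h5
    unfold kmapR
    rcases le_or_gt σ 0 with h6 | h6
    · rw [max_eq_right h6, min_eq_left h6, hκz χ h3 h4, zero_add]
    · rw [max_eq_left h6.le, min_eq_right h6.le, add_zero]
      rcases h5 with h5 | h5
      · exact hκ.near χ σ h3 h4 (by rw [abs_of_pos h6]; exact h5)
      · exact hκ.far χ σ h3 h4 (by rw [abs_of_pos h6]; linarith)
  have hLoff : ∀ χ σ, 0 ≤ χ → χ ≤ 1 → (σ ≤ -((n : ℝ) + 1) ∨ -c ≤ σ) → kmapL κ χ σ = σ := by
    intro χ σ h3 h4 h5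
    unfold kmapL
    rcases le_or_gt 0 σ with h6 | h6
    · rw [min_eq_right h6, max_eq_left h6, hκz χ h3 h4, zero_add]
    · rw [min_eq_left h6.le, max_eq_right h6.le, add_zero]
      rcases h5 with h5 | h5
      · exact hκ.far χ σ h3 h4 (by rw [abs_of_neg h6]; linarith)
      · exact hκ.near χ σ h3 h4 (by rw [abs_of_neg h6]; linarith)
  have hR0 : ∀ σ, kmapR κ 0 σ = σ := by
    intro σ
    unfold kmapR
    rw [hκ.zero]
    exact max_add_min σ 0 |>.trans (add_zero σ)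
  have hL0 : ∀ σ, kmapL κ 0 σ = σ := by
    intro σ
    unfold kmapL
    rw [hκ.zero]
    exact min_add_max σ 0 |>.trans (add_zero σ)
  obtain ⟨GRi, hGR1, hGR2⟩ := kmap_half b hTr hq hpq hδ hδ' h2δ ee ee_continuous abs_cr_le_ee
    neg_le_ee ee_add_int (kmapR κ) hRc hRm hR0 (a := c) (c := (n : ℝ) + 1) (a' := 0)
    (c' := (n : ℝ) + 3) hc (by linarith) (by linarith) hRoff
  obtain ⟨GLe, hGL1, hGL2⟩ := kmap_half b hTr hq hpq hδ hδ' h2δ
    (fun r θ υ => ee r θ (υ + D lam r θ)) (eeL_continuous hlam hlam')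
    (fun r θ υ => abs_cr_le_ee _ _ _) (fun r θ υ => neg_le_ee _ _ _)
    (fun r θ υ k => by simp only [D_add_int, ee_add_int]) (kmapL κ) hLc hLm hL0
    (a := -((n : ℝ) + 1)) (c := -c) (a' := -((n : ℝ) + 3))
    (c' := 0) (by linarith) (by linarith) (by linarith) hLoff
  set Cc : Set B := (fun x : Y × ℝ × ℝ => b.β (x.1, x.2.1, x.2.2 + (p : ℝ) / q * x.2.1)) ''
    ({y | -(1 / 20) ≤ b.ρ y} ×ˢ ((Icc c ((n : ℝ) + 1) ∪ Icc (-((n : ℝ) + 1)) (-c)) ×ˢ
      Icc (-δ₁) δ₁)) with hCc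
  have hCcc : IsClosed Cc := by
    have h3 : IsCompact ({y | -(1 / 20) ≤ b.ρ y} ×ˢ
        ((Icc c ((n : ℝ) + 1) ∪ Icc (-((n : ℝ) + 1)) (-c)) ×ˢ Icc (-δ₁) δ₁)) :=
      b.ρ_cpt.prod ((isCompact_Icc.union isCompact_Icc).prod isCompact_Icc)
    have h4 : Continuous fun x : Y × ℝ × ℝ => b.β (x.1, x.2.1, x.2.2 + (p : ℝ) / q * x.2.1) := by
      have := b.β_cont
      fun_prop
    exact (h3.image h4).isClosed
  -- the two supports are disjoint
  have hRfix : ∀ y θ σ (υ : T), |cr θ| ≤ δ₁ → -((n : ℝ) + 2) ≤ σ → σ ≤ 0 →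
      GRi (b.β (y, σ, θ + (p : ℝ) / q * σ), υ) = (b.β (y, σ, θ + (p : ℝ) / q * σ), υ) := by
    intro y θ σ υ h3 h4 h5
    apply hGR2
    intro y' θ' σ' υ' h6 h7 h8 h9 h10
    have h11 := kmap_sep b hq hpq (by have := abs_cr_le θ'; linarith)
      (by rw [abs_lt]; constructor <;> linarith) (congrArg Prod.fst h10)
    linarith [h11.2.1]
  have hLfix : ∀ y θ σ (υ : T), |cr θ| ≤ δ₁ → 0 ≤ σ → σ ≤ (n : ℝ) + 2 →
      GLe (b.β (y, σ, θ + (p : ℝ) / q * σ), υ) = (b.β (y, σ, θ + (p : ℝ) / q * σ), υ) := by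
    intro y θ σ υ h3 h4 h5
    apply hGL2
    intro y' θ' σ' υ' h6 h7 h8 h9 h10
    have h11 := kmap_sep b hq hpq (by have := abs_cr_le θ'; linarith)
      (by rw [abs_lt]; constructor <;> linarith) (congrArg Prod.fst h10)
    linarith [h11.2.1]
  refine ⟨GLe.trans GRi, Ccᶜ, hCcc.isOpen_compl, ?_, ?_, ?_, ?_⟩
  · rintro z ⟨y, θ, h3, h4, rfl⟩ ⟨⟨y', σ', θ'⟩, ⟨h5, h6, h7⟩, h8⟩
    have h9 : |θ'| ≤ δ₁ := abs_le.2 h7
    have h10 := (h4.trans (min_le_left _ _))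
    have h11 : b.β (y', σ', θ' + (p : ℝ) / q * σ') = b.β (y, 0, θ + (p : ℝ) / q * 0) := by
      rw [mul_zero, add_zero]
      exact h8
    have h12 : |σ' - 0| < q := by
      rw [sub_zero, abs_lt]
      rcases h6 with h6 | h6
      · exact ⟨by linarith [h6.1], by linarith [h6.2]⟩
      · exact ⟨by linarith [h6.1], by linarith [h6.2]⟩
    have h13 := kmap_sep b hq hpq (by have := abs_cr_le θ'; linarith) h12 h11
    have h14 : σ' = 0 := h13.2.1
    simp only at h6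
    rw [h14] at h6
    rcases h6 with h6 | h6
    · linarith [h6.1]
    · linarith [h6.2]
  · rintro ⟨z, υ⟩ hz
    have hL : GLe (z, υ) = (z, υ) := by
      apply hGL2
      intro y θ σ υ' h3 h4 h5 h6 h7
      apply hz
      have h8 := neg_le_ee (b.ρ y) θ (υ' + D lam (b.ρ y) θ)
      exact ⟨(y, σ, θ), ⟨show -(1 / 20) ≤ b.ρ y by linarith, Or.inr ⟨h5, h6⟩, abs_le.1 h3⟩,
        (congrArg Prod.fst h7).symm⟩
    have hR : GRi (z, υ) = (z, υ) := by
      apply hGR2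
      intro y θ σ υ' h3 h4 h5 h6 h7
      apply hz
      have h8 := neg_le_ee (b.ρ y) θ υ'
      exact ⟨(y, σ, θ), ⟨show -(1 / 20) ≤ b.ρ y by linarith, Or.inl ⟨h5, h6⟩, abs_le.1 h3⟩,
        (congrArg Prod.fst h7).symm⟩
    show GRi (GLe (z, υ)) = (z, υ)
    rw [hL, hR]
  · intro y θ σ υ h3 h4
    have hcr : |cr θ| ≤ δ₁ := (abs_cr_le_ee _ _ _).trans h3
    show GRi (GLe _) = _
    set χ := chi δ₁ (ee (b.ρ y) θ υ) with hχ
    have hχ0 : 0 ≤ χ := kmap_chi_nonneg _ _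
    have hχ1 : χ ≤ 1 := kmap_chi_le_one _ _
    have hm := hκ.mono χ hχ0 hχ1
    have hz := hκz χ hχ0 hχ1
    rcases lt_trichotomy σ 0 with h5 | h5 | h5
    · -- left
      have h6 : κ χ σ < 0 := by
        rw [← hz]
        exact hm h5
      rw [abs_of_neg h5] at h4
      have h7 : -((n : ℝ) + 2) ≤ κ χ σ := by
        have h8 : κ χ (-((n : ℝ) + 2)) = -((n : ℝ) + 2) := by
          apply hκ.far χ _ hχ0 hχ1
          rw [abs_neg, abs_of_pos (by linarith)]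
          linarith
        rw [← h8]
        exact hm.monotone (by linarith)
      rw [b.ta_of_neg lam _ y θ h5, b.ta_of_neg lam _ y θ h6]
      have h8 := hGL1 y θ σ (υ - D lam (b.ρ y) θ) (by rw [sub_add_cancel]; exact h3)
        (by linarith) h5
      rw [sub_add_cancel, ← hχ] at h8
      have h9 : kmapL κ χ σ = κ χ σ := by
        unfold kmapL
        rw [min_eq_left h5.le, max_eq_right h5.le, add_zero]
      rw [h9] at h8
      rw [h8]
      exact hRfix y θ _ _ hcr h7 h6.le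
    · subst h5
      rw [hz, b.ta_of_nonneg lam _ y θ le_rfl]
      rw [hLfix y θ 0 υ hcr le_rfl (by linarith), hRfix y θ 0 υ hcr (by linarith) le_rfl]
    · have h6 : 0 < κ χ σ := by
        rw [← hz]
        exact hm h5
      rw [abs_of_pos h5] at h4
      rw [b.ta_of_nonneg lam _ y θ h5.le, b.ta_of_nonneg lam _ y θ h6.le]
      rw [hLfix y θ σ υ hcr h5.le h4]
      have h8 := hGR1 y θ σ υ h3 h5 (by linarith)
      rw [← hχ] at h8
      have h9 : kmapR κ χ σ = κ χ σ := by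
        unfold kmapR
        rw [max_eq_left h5.le, min_eq_right h5.le, add_zero]
      rw [h9] at h8
      exact h8
  · rintro x hx
    have hL : GLe x = x := by
      apply hGL2
      intro y θ σ υ' h3 h4 h5 h6 h7
      refine hx ⟨y, θ, σ, υ' + D lam (b.ρ y) θ, h4, h5, by linarith, ?_⟩
      rw [b.ta_of_neg lam _ y θ (by linarith), add_sub_cancel_right]
      exact h7
    have hR : GRi x = x := by
      apply hGR2
      intro y θ σ υ' h3 h4 h5 h6 h7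
      refine hx ⟨y, θ, σ, υ', h4, by linarith, h6, ?_⟩
      rw [b.ta_of_nonneg lam _ y θ (by linarith)]
      exact h7
    show GRi (GLe x) = x
    rw [hL, hR]

end Pool.Agent.EvenHomeo
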