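import Pool.Agent.Lib_helper30.EvenHomeo.Calc

/-!
# FROZEN, part 1: the slowing permutation of `B × T`
-/

open Set Metric Topology

namespace Pool.Agent.EvenHomeo

/-- The tent function of the slowing. -/
noncomputable def frozenA (δ σ : ℝ) : ℝ := max 0 (min ((σ + 1 + δ) / (1 + δ)) ((δ - σ) / δ))

/-- The amount of slowing. -/
noncomputable def frozenX (δ r θ : ℝ) (υ : T) : ℝ := max 0 (1 - ee r θ υ / δ)

theorem frozenA_nonneg (δ σ : ℝ) : 0 ≤ frozenA δ σ := le_max_left _ _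

theorem frozenX_nonneg (δ r θ : ℝ) (υ : T) : 0 ≤ frozenX δ r θ υ := le_max_left _ _

theorem frozenX_le_one {δ : ℝ} (hδ : 0 < δ) (r θ : ℝ) (υ : T) : frozenX δ r θ υ ≤ 1 := by
  unfold frozenX
  refine max_le zero_le_one ?_
  have := ee_nonneg r θ υ
  have : 0 ≤ ee r θ υ / δ := by positivity
  linarith

theorem frozenX_eq_zero {δ r θ : ℝ} {υ : T} (hδ : 0 < δ) (h : δ ≤ ee r θ υ) :
    frozenX δ r θ υ = 0 := by
  unfold frozenX
  refine max_eq_left ?_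
  have : 1 ≤ ee r θ υ / δ := (one_le_div hδ).2 h
  linarith

theorem frozenX_eq_one {δ r θ : ℝ} {υ : T} (h : ee r θ υ = 0) : frozenX δ r θ υ = 1 := by
  unfold frozenX
  rw [h]
  simp

theorem frozenX_pos_imp {δ r θ : ℝ} {υ : T} (hδ : 0 < δ) (h : frozenX δ r θ υ ≠ 0) :
    ee r θ υ < δ := by
  by_contra hcon
  exact h (frozenX_eq_zero hδ (not_lt.1 hcon))

theorem frozenX_add_int (δ r θ : ℝ) (υ : T) (k : ℤ) :
    frozenX δ r (θ + k) υ = frozenX δ r θ υ := by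
  unfold frozenX
  rw [ee_add_int]

theorem frozenA_of_le {δ σ : ℝ} (hδ : 0 < δ) (h : σ ≤ -1 - δ) : frozenA δ σ = 0 := by
  unfold frozenA
  refine max_eq_left (min_le_of_left_le ?_)
  exact div_nonpos_of_nonpos_of_nonneg (by linarith) (by linarith)

theorem frozenA_of_ge {δ σ : ℝ} (hδ : 0 < δ) (h : δ ≤ σ) : frozenA δ σ = 0 := by
  unfold frozenA
  refine max_eq_left (min_le_of_right_le ?_)
  exact div_nonpos_of_nonpos_of_nonneg (by linarith) hδ.le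

theorem frozenA_left {δ σ : ℝ} (hδ : 0 < δ) (h : -1 - δ ≤ σ) (h' : σ ≤ 0) :
    frozenA δ σ = (σ + 1 + δ) / (1 + δ) := by
  unfold frozenA
  have h1 : (σ + 1 + δ) / (1 + δ) ≤ 1 := by
    rw [div_le_one (by linarith)]; linarith
  have h2 : 1 ≤ (δ - σ) / δ := by
    rw [le_div_iff₀ hδ]; linarith
  rw [min_eq_left (h1.trans h2), max_eq_right]
  exact div_nonneg (by linarith) (by linarith)

theorem frozenA_right {δ σ : ℝ} (hδ : 0 < δ) (h : 0 ≤ σ) (h' : σ ≤ δ) :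
    frozenA δ σ = (δ - σ) / δ := by
  unfold frozenA
  have h1 : 1 ≤ (σ + 1 + δ) / (1 + δ) := by
    rw [le_div_iff₀ (by linarith)]; linarith
  have h2 : (δ - σ) / δ ≤ 1 := by
    rw [div_le_one hδ]; linarith
  rw [min_eq_right (h2.trans h1), max_eq_right]
  exact div_nonneg (by linarith) hδ.le

theorem frozenA_zero {δ : ℝ} (hδ : 0 < δ) : frozenA δ 0 = 1 := by
  rw [frozenA_right hδ le_rfl hδ.le, sub_zero, div_self hδ.ne']

theorem frozenA_le_one {δ : ℝ} (hδ : 0 < δ) (σ : ℝ) : frozenA δ σ ≤ 1 := by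
  unfold frozenA
  refine max_le zero_le_one ?_
  rcases le_total σ 0 with h | h
  · refine min_le_of_left_le ?_
    rw [div_le_one (by linarith)]; linarith
  · refine min_le_of_right_le ?_
    rw [div_le_one hδ]; linarith

theorem frozenA_continuous (δ : ℝ) : Continuous (frozenA δ) := by
  unfold frozenA
  fun_prop

/-- The slowed time. -/
noncomputable def frozenP (δ σ ξ : ℝ) : ℝ := σ - ξ * frozenA δ σ

/-- The tent satisfies `a σ' - a σ < σ' - σ` with a left slope below one. -/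
theorem frozenA_sub_lt {δ σ σ' : ℝ} (hδ : 0 < δ) (h : σ < σ') :
    frozenA δ σ' - frozenA δ σ < σ' - σ := by
  have hd : 0 < 1 + δ := by linarith
  -- `a` is a maximum of zero and a minimum of functions with slopes `1/(1+δ)` and `-1/δ`
  have h1 : min ((σ' + 1 + δ) / (1 + δ)) ((δ - σ') / δ)
      ≤ min ((σ + 1 + δ) / (1 + δ)) ((δ - σ) / δ) + (σ' - σ) / (1 + δ) := by
    rw [← min_add_add_right]
    refine min_le_min ?_ ?_
    · apply le_of_eq; field_simp; ring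
    · have e1 : (δ - σ') / δ ≤ (δ - σ) / δ := by
        rw [div_le_div_iff_of_pos_right hδ]; linarith
      have e2 : 0 ≤ (σ' - σ) / (1 + δ) := div_nonneg (by linarith) hd.le
      linarith
  have h2 : frozenA δ σ' ≤ frozenA δ σ + (σ' - σ) / (1 + δ) := by
    unfold frozenA
    refine max_le ?_ ?_
    · have e1 := le_max_left (0 : ℝ) (min ((σ + 1 + δ) / (1 + δ)) ((δ - σ) / δ))
      have e2 : 0 ≤ (σ' - σ) / (1 + δ) := div_nonneg (by linarith) hd.le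
      linarith
    · refine h1.trans ?_
      have e1 := le_max_right (0 : ℝ) (min ((σ + 1 + δ) / (1 + δ)) ((δ - σ) / δ))
      linarith
  have h3 : (σ' - σ) / (1 + δ) < σ' - σ := by
    rw [div_lt_iff₀ hd]
    nlinarith [mul_pos hδ (sub_pos.2 h)]
  linarith

theorem frozenP_strictMono {δ ξ : ℝ} (hδ : 0 < δ) (h0 : 0 ≤ ξ) (h1 : ξ ≤ 1) :
    StrictMono fun σ => frozenP δ σ ξ := by
  intro σ σ' h
  simp only [frozenP]
  have h2 := frozenA_sub_lt hδ h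
  rcases le_total (frozenA δ σ' - frozenA δ σ) 0 with h3 | h3
  · have : ξ * (frozenA δ σ' - frozenA δ σ) ≤ 0 := mul_nonpos_of_nonneg_of_nonpos h0 h3
    nlinarith
  · have : ξ * (frozenA δ σ' - frozenA δ σ) ≤ 1 * (frozenA δ σ' - frozenA δ σ) :=
      mul_le_mul_of_nonneg_right h1 h3
    nlinarith

theorem frozenP_left {δ ξ : ℝ} (hδ : 0 < δ) : frozenP δ (-1 - δ) ξ = -1 - δ := by
  unfold frozenP
  rw [frozenA_of_le hδ le_rfl]
  ring

theorem frozenP_right {δ ξ : ℝ} (hδ : 0 < δ) : frozenP δ δ ξ = δ := by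
  unfold frozenP
  rw [frozenA_of_ge hδ le_rfl]
  ring

theorem frozenP_mem {δ ξ σ : ℝ} (hδ : 0 < δ) (h0 : 0 ≤ ξ) (h1 : ξ ≤ 1) (h : -1 - δ ≤ σ)
    (h' : σ ≤ δ) : -1 - δ ≤ frozenP δ σ ξ ∧ frozenP δ σ ξ ≤ δ := by
  have hm := (frozenP_strictMono hδ h0 h1).monotone
  constructor
  · have := hm h
    simp only [frozenP_left hδ] at this
    exact this
  · have := hm h'
    simp only [frozenP_right hδ] at this
    exact this

theorem frozenP_surj {δ ξ σ : ℝ} (hδ : 0 < δ) (h : -1 - δ ≤ σ) (h' : σ ≤ δ) :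
    ∃ σ', -1 - δ ≤ σ' ∧ σ' ≤ δ ∧ frozenP δ σ' ξ = σ := by
  have hc : ContinuousOn (fun σ => frozenP δ σ ξ) (Icc (-1 - δ) δ) := by
    refine Continuous.continuousOn ?_
    unfold frozenP
    exact continuous_id.sub (continuous_const.mul (frozenA_continuous δ))
  have h1 := intermediate_value_Icc (by linarith : -1 - δ ≤ δ) hc
  rw [frozenP_left hδ, frozenP_right hδ] at h1
  obtain ⟨σ', h2, h3⟩ := h1 ⟨h, h'⟩
  exact ⟨σ', h2.1, h2.2, h3⟩

section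

variable {X : Type} [NormedAddCommGroup X] [NormedSpace ℝ X] {Y B : Type} [MetricSpace Y]
  [MetricSpace B]

namespace Base

variable (b : Base X Y B)

/-- The slowing permutation: on the tube `Wm` the time is changed by `frozenP`. -/
noncomputable def slow (lam α δ : ℝ) (p : B × T) : B × T :=
  open Classical in
  if h : ∃ q : Y × ℝ × ℝ × T, ee (b.ρ q.1) q.2.1 q.2.2.2 ≤ δ ∧ -1 - δ ≤ q.2.2.1 ∧ q.2.2.1 ≤ δ ∧
      p = b.ta lam α q.1 q.2.1 q.2.2.1 q.2.2.2 then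
    b.ta lam α h.choose.1 h.choose.2.1
      (frozenP δ h.choose.2.2.1 (frozenX δ (b.ρ h.choose.1) h.choose.2.1 h.choose.2.2.2))
      h.choose.2.2.2
  else p

variable {lam α δ : ℝ}

theorem slow_off {p : B × T} (hp : p ∉ b.Wm lam α δ) : b.slow lam α δ p = p := by
  unfold slow
  rw [dif_neg]
  rintro ⟨⟨y, θ, σ, υ⟩, h1, h2, h3, h4⟩
  exact hp ⟨y, θ, σ, υ, h1, h2, h3, h4⟩

theorem slow_ta (h1 : 1 / 5 < α) (h2 : α < 1 / 3) (hδ : 0 < δ) (hδ' : δ ≤ 1 / 20) {y : Y}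
    {θ σ : ℝ} {υ : T} (he : ee (b.ρ y) θ υ ≤ δ) (h3 : -1 - δ ≤ σ) (h4 : σ ≤ δ) :
    b.slow lam α δ (b.ta lam α y θ σ υ)
      = b.ta lam α y θ (frozenP δ σ (frozenX δ (b.ρ y) θ υ)) υ := by
  have h : ∃ q : Y × ℝ × ℝ × T, ee (b.ρ q.1) q.2.1 q.2.2.2 ≤ δ ∧ -1 - δ ≤ q.2.2.1 ∧
      q.2.2.1 ≤ δ ∧ b.ta lam α y θ σ υ = b.ta lam α q.1 q.2.1 q.2.2.1 q.2.2.2 :=
    ⟨(y, θ, σ, υ), he, h3, h4, rfl⟩
  unfold slow
  rw [dif_pos h]
  obtain ⟨g1, g2, g3, g4⟩ := h.choose_spec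
  generalize h.choose = q at g1 g2 g3 g4 ⊢
  obtain ⟨y', θ', σ', υ'⟩ := q
  simp only at g1 g2 g3 g4 ⊢
  have c1 : |cr θ| ≤ 1 / 20 := ((abs_cr_le_ee _ _ _).trans he).trans hδ'
  have c2 : |cr θ'| ≤ 1 / 20 := ((abs_cr_le_ee _ _ _).trans g1).trans hδ'
  obtain ⟨rfl, rfl, ⟨k, rfl⟩, rfl⟩ := b.ta_inj_short h1 h2 c1 c2
    (by rw [abs_lt]; constructor <;> linarith) g4
  rw [frozenX_add_int, b.ta_add_int]

theorem slow_mem (h1 : 1 / 5 < α) (h2 : α < 1 / 3) (hδ : 0 < δ) (hδ' : δ ≤ 1 / 20) {p : B × T}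
    (hp : p ∈ b.Wm lam α δ) : b.slow lam α δ p ∈ b.Wm lam α δ := by
  obtain ⟨y, θ, σ, υ, he, h3, h4, rfl⟩ := hp
  rw [b.slow_ta h1 h2 hδ hδ' he h3 h4]
  obtain ⟨h5, h6⟩ := frozenP_mem hδ (frozenX_nonneg δ (b.ρ y) θ υ)
    (frozenX_le_one hδ (b.ρ y) θ υ) h3 h4
  exact ⟨y, θ, _, υ, he, h5, h6, rfl⟩

theorem slow_surj_mem (h1 : 1 / 5 < α) (h2 : α < 1 / 3) (hδ : 0 < δ) (hδ' : δ ≤ 1 / 20)
    {p : B × T} (hp : p ∈ b.Wm lam α δ) : ∃ p' ∈ b.Wm lam α δ, b.slow lam α δ p' = p := by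
  obtain ⟨y, θ, σ, υ, he, h3, h4, rfl⟩ := hp
  obtain ⟨σ', h5, h6, h7⟩ := frozenP_surj (ξ := frozenX δ (b.ρ y) θ υ) hδ h3 h4
  refine ⟨b.ta lam α y θ σ' υ, ⟨y, θ, σ', υ, he, h5, h6, rfl⟩, ?_⟩
  rw [b.slow_ta h1 h2 hδ hδ' he h5 h6, h7]

theorem slow_bijective (h1 : 1 / 5 < α) (h2 : α < 1 / 3) (hδ : 0 < δ) (hδ' : δ ≤ 1 / 20) :
    Function.Bijective (b.slow lam α δ) := by
  constructor
  · intro p p' h
    by_cases hp : p ∈ b.Wm lam α δ
    · by_cases hp' : p' ∈ b.Wm lam α δ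
      · obtain ⟨y, θ, σ, υ, he, h3, h4, rfl⟩ := hp
        obtain ⟨y', θ', σ', υ', he', h3', h4', rfl⟩ := hp'
        rw [b.slow_ta h1 h2 hδ hδ' he h3 h4, b.slow_ta h1 h2 hδ hδ' he' h3' h4'] at h
        have c1 : |cr θ| ≤ 1 / 20 := ((abs_cr_le_ee _ _ _).trans he).trans hδ'
        have c2 : |cr θ'| ≤ 1 / 20 := ((abs_cr_le_ee _ _ _).trans he').trans hδ'
        obtain ⟨h5, h6⟩ := frozenP_mem hδ (frozenX_nonneg δ (b.ρ y) θ υ)
          (frozenX_le_one hδ (b.ρ y) θ υ) h3 h4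
        obtain ⟨h5', h6'⟩ := frozenP_mem hδ (frozenX_nonneg δ (b.ρ y') θ' υ')
          (frozenX_le_one hδ (b.ρ y') θ' υ') h3' h4'
        obtain ⟨rfl, hσ, ⟨k, rfl⟩, rfl⟩ := b.ta_inj_short h1 h2 c1 c2
          (by rw [abs_lt]; constructor <;> linarith) h
        rw [frozenX_add_int] at hσ
        have hσ' := (frozenP_strictMono hδ (frozenX_nonneg δ (b.ρ y) θ υ)
          (frozenX_le_one hδ (b.ρ y) θ υ)).injective hσ
        rw [hσ', b.ta_add_int]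
      · rw [b.slow_off hp'] at h
        exact absurd (h ▸ b.slow_mem h1 h2 hδ hδ' hp) hp'
    · by_cases hp' : p' ∈ b.Wm lam α δ
      · rw [b.slow_off hp] at h
        exact absurd (h ▸ b.slow_mem h1 h2 hδ hδ' hp') hp
      · rwa [b.slow_off hp, b.slow_off hp'] at h
  · intro p
    by_cases hp : p ∈ b.Wm lam α δ
    · obtain ⟨p', -, h⟩ := b.slow_surj_mem h1 h2 hδ hδ' hp
      exact ⟨p', h⟩
    · exact ⟨p, b.slow_off hp⟩

/-- `L` maps `Wm` onto `Wt`. -/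
theorem L_mem_Wt_iff (hlam : 0 < lam) (hlam' : lam ≤ 1 / 20) (h1 : 1 / 5 < α) (h2 : α < 1 / 3)
    (hδ : 0 < δ) (hδ' : δ ≤ 1 / 20) (p : B × T) :
    b.L lam α p ∈ b.Wt lam α δ ↔ p ∈ b.Wm lam α δ := by
  constructor
  · rintro ⟨y, θ, σ, υ, he, h3, h4, h5⟩
    have c1 : |cr θ| ≤ 1 / 20 := ((abs_cr_le_ee _ _ _).trans he).trans hδ'
    refine ⟨y, θ, σ - 1, υ, he, by linarith, by linarith, ?_⟩
    rw [← b.L_symm_ta_short hlam hlam' h1 h2 c1 y (by linarith) (by linarith), ← h5,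
      Equiv.symm_apply_apply]
  · rintro ⟨y, θ, σ, υ, he, h3, h4, rfl⟩
    have c1 : |cr θ| ≤ 1 / 20 := ((abs_cr_le_ee _ _ _).trans he).trans hδ'
    refine ⟨y, θ, σ + 1, υ, he, by linarith, by linarith, ?_⟩
    rw [b.L_ta_short hlam hlam' h1 h2 c1 y (by linarith) (by linarith)]

/-- The frozen map in coordinates. -/
noncomputable def frz (lam α δ : ℝ) (p : B × T) : B × T := b.L lam α (b.slow lam α δ p)

theorem frz_bijective (h1 : 1 / 5 < α) (h2 : α < 1 / 3) (hδ : 0 < δ) (hδ' : δ ≤ 1 / 20) :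
    Function.Bijective (b.frz lam α δ) :=
  (b.L lam α).bijective.comp (b.slow_bijective h1 h2 hδ hδ')

theorem frz_E (hlam : 0 < lam) (hlam' : lam ≤ 1 / 20) (h1 : 1 / 5 < α) (h2 : α < 1 / 3)
    (hδ : 0 < δ) (hδ' : δ ≤ 1 / 20) {p : B × T} (hp : p ∈ b.E) : b.frz lam α δ p = p := by
  obtain ⟨y, υ, he, rfl⟩ := (b.mem_E_iff lam α p).1 hp
  unfold frz
  have c0 : |cr 0| ≤ 1 / 20 := by
    have : cr 0 = 0 := (cr_eq_zero_iff 0).2 ⟨0, by simp⟩
    rw [this]; norm_num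
  rw [b.slow_ta h1 h2 hδ hδ' (he.le.trans hδ.le) (by linarith) hδ.le]
  rw [frozenX_eq_one he]
  have h3 : frozenP δ 0 1 = -1 := by
    unfold frozenP
    rw [frozenA_zero hδ]; norm_num
  rw [h3, b.L_ta_short hlam hlam' h1 h2 c0 y (by norm_num) (by norm_num)]
  norm_num

end Base

end

end Pool.Agent.EvenHomeo
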